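import Mathlib

set_option autoImplicit false

namespace Pool.Agent.Lib.MP_da4f77_co

open Finset PowerSeries

section
variable {ι : Type*} [DecidableEq ι]

theorem coeff_prod_pi (f : ι → PowerSeries ℕ) (d : ℕ) (s : Finset ι) :
    coeff d (∏ j ∈ s, f j) = ∑ l ∈ piAntidiag s d, ∏ i ∈ s, coeff (l i) (f i) := by
  rw [PowerSeries.coeff_prod, finsuppAntidiag, sum_map]
  exact Finset.sum_attach (piAntidiag s d) (fun l => ∏ i ∈ s, coeff (l i) (f i))

theorem mk_one_pow (d : ℕ) :
    (PowerSeries.mk 1 : PowerSeries ℕ) ^ (d + 1) = PowerSeries.mk fun n => Nat.choose (d + n) d := by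
  induction d with
  | zero => ext; simp
  | succ d hd =>
      ext n
      rw [pow_add, hd, pow_one, mul_comm, coeff_mul]
      simp_rw [coeff_mk, Pi.one_apply, one_mul]
      rw [Finset.sum_antidiagonal_choose_add, add_right_comm]

theorem mk_choose (k g : ℕ) (h : k ≤ g) :
    (PowerSeries.mk fun x => (x + k).choose g : PowerSeries ℕ) = X ^ (g - k) * (PowerSeries.mk 1) ^ (g + 1) := by
  ext x
  rw [mk_one_pow, coeff_X_pow_mul', coeff_mk]
  split_ifs with hx
  · rw [coeff_mk]; congr 1; omega
  · exact Nat.choose_eq_zero_of_lt (by omega)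

theorem conv (s : Finset ι) (c : ℕ) (hc : s.card = c + 1) (k g : ι → ℕ)
    (h : ∀ i ∈ s, k i ≤ g i) (t : ℕ) :
    ∑ x ∈ piAntidiag s t, ∏ i ∈ s, (x i + k i).choose (g i)
      = (t + (∑ i ∈ s, k i + c)).choose (∑ i ∈ s, g i + c) := by
  have h1 := coeff_prod_pi (fun i => (PowerSeries.mk fun x => (x + k i).choose (g i))) t s
  simp only [coeff_mk] at h1
  rw [← h1, prod_congr rfl (fun i hi => mk_choose (k i) (g i) (h i hi)), prod_mul_distrib,
    prod_pow_eq_pow_sum, prod_pow_eq_pow_sum]
  have hle : ∑ i ∈ s, k i ≤ ∑ i ∈ s, g i := sum_le_sum h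
  have h2 : ∑ i ∈ s, (g i - k i) = (∑ i ∈ s, g i + c) - (∑ i ∈ s, k i + c) := by
    rw [sum_tsub_distrib s h]; omega
  have h3 : ∑ i ∈ s, (g i + 1) = (∑ i ∈ s, g i + c) + 1 := by
    rw [sum_add_distrib]; simp [hc]; ring
  rw [h2, h3, ← mk_choose _ _ (by omega), coeff_mk]

theorem mk_choose' (n : ℕ) :
    (PowerSeries.mk fun x => n.choose x : PowerSeries ℕ) = (1 + X) ^ n := by
  induction n with
  | zero => ext x; cases x <;> simp
  | succ n ih =>
    ext x
    rw [pow_succ, ← ih, mul_add, mul_one, map_add]
    cases x with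
    | zero => simp
    | succ x => rw [coeff_succ_mul_X]; simp [Nat.choose_succ_succ, add_comm]

theorem vand (s : Finset ι) (x : ι → ℕ) (a : ℕ) :
    (∑ i ∈ s, x i).choose a = ∑ e ∈ piAntidiag s a, ∏ i ∈ s, (x i).choose (e i) := by
  have h1 := coeff_prod_pi (fun i => (PowerSeries.mk fun y => (x i).choose y)) a s
  simp only [coeff_mk] at h1
  rw [← h1]
  simp only [mk_choose']
  rw [prod_pow_eq_pow_sum, ← mk_choose', coeff_mk]

end

theorem vand2 (m n r : ℕ) :
    (m + n).choose r = ∑ j ∈ range (r + 1), m.choose j * n.choose (r - j) := by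
  rw [Nat.add_choose_eq, Finset.Nat.sum_antidiagonal_eq_sum_range_succ_mk]

theorem choose_mul_choose (x e f N : ℕ) (hN : e < N) :
    x.choose e * x.choose f
      = ∑ k ∈ range N, e.choose k * f.choose k * (x + k).choose (e + f) := by
  have hB : ∀ j, ∑ k ∈ range N, e.choose k * f.choose k * k.choose j
      = e.choose j * (e + f - j).choose e := by
    intro j
    by_cases hj : j ≤ e
    · have h1 : e + f - j = f + (e - j) := by omega
      rw [h1, vand2, mul_sum]
      symm
      apply sum_subset_zero_on_sdiff
      · exact range_subset_range.2 (by omega)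
      · intro k hk
        simp only [mem_sdiff, mem_range] at hk
        rw [Nat.choose_eq_zero_of_lt (show e < k by omega)]; simp
      · intro k hk
        have hk' : k ≤ e := by simpa [Nat.lt_succ_iff] using hk
        by_cases hjk : j ≤ k
        · have h2 := Nat.choose_mul (n := e) (k := k) (s := j) hjk
          have h3 : (e - j).choose (k - j) = (e - j).choose (e - k) := by
            rw [← Nat.choose_symm (show k - j ≤ e - j by omega)]; congr 1; omega
          rw [h3] at h2
          calc e.choose j * (f.choose k * (e - j).choose (e - k))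
              = f.choose k * (e.choose j * (e - j).choose (e - k)) := by ring
            _ = _ := by rw [← h2]; ring
        · rw [Nat.choose_eq_zero_of_lt (show k < j by omega),
            Nat.choose_eq_zero_of_lt (show e - j < e - k by omega)]; simp
    · rw [Nat.choose_eq_zero_of_lt (show e < j by omega), zero_mul]
      apply sum_eq_zero
      intro k _
      by_cases hk : k ≤ e
      · rw [Nat.choose_eq_zero_of_lt (show k < j by omega)]; simp
      · rw [Nat.choose_eq_zero_of_lt (show e < k by omega)]; simp
  have hA : ∑ k ∈ range N, e.choose k * f.choose k * (x + k).choose (e + f)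
      = ∑ j ∈ range (e + f + 1), e.choose j * (e + f - j).choose e * x.choose (e + f - j) := by
    simp only [← hB, sum_mul]
    rw [sum_comm]
    refine sum_congr rfl fun k _ => ?_
    rw [add_comm x k, vand2, mul_sum]
    exact sum_congr rfl fun j _ => by ring
  rw [hA]
  by_cases hx : e ≤ x
  · obtain ⟨y, rfl⟩ := Nat.exists_eq_add_of_le hx
    rw [vand2 e y f, mul_sum]
    apply sum_subset_zero_on_sdiff
    · exact range_subset_range.2 (by omega)
    · intro j hj
      simp only [mem_sdiff, mem_range] at hj
      by_cases hje : j ≤ e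
      · rw [Nat.choose_eq_zero_of_lt (show e + f - j < e by omega)]; simp
      · rw [Nat.choose_eq_zero_of_lt (show e < j by omega)]; simp
    · intro j hj
      have hj' : j ≤ f := by simpa [Nat.lt_succ_iff] using hj
      have h2 := Nat.choose_mul (n := e + y) (k := e + f - j) (s := e) (by omega)
      rw [show e + y - e = y by omega, show e + f - j - e = f - j by omega] at h2
      calc (e + y).choose e * (e.choose j * y.choose (f - j))
          = e.choose j * ((e + y).choose e * y.choose (f - j)) := by ring
        _ = _ := by rw [← h2]; ring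
  · rw [Nat.choose_eq_zero_of_lt (show x < e by omega), zero_mul]
    symm
    apply sum_eq_zero
    intro j _
    by_cases hj : e ≤ e + f - j
    · rw [Nat.choose_eq_zero_of_lt (show x < e + f - j by omega)]; simp
    · rw [Nat.choose_eq_zero_of_lt (show e + f - j < e by omega)]; simp

end Pool.Agent.Lib.MP_da4f77_co
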