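import Mathlib

set_option autoImplicit false

namespace Pool.Agent.Lib.MP_da4f77_co

open Finset Polynomial

section
variable {ι : Type*} [DecidableEq ι]

noncomputable def es (r : ι → ℚ) (T : Finset ι) (q : ℕ) : ℚ :=
  (∏ x ∈ T, (1 + C (r x) * X) : ℚ[X]).coeff q

omit [DecidableEq ι] in
theorem es_eq (r : ι → ℚ) (T : Finset ι) (q : ℕ) :
    es r T q = ∑ t ∈ T.powersetCard q, ∏ i ∈ t, r i := by
  rw [es, prod_one_add, finsetSum_coeff, powersetCard_eq_filter, sum_filter]
  refine sum_congr rfl fun t _ => ?_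
  rw [prod_mul_distrib, prod_const, ← map_prod, coeff_C_mul_X_pow]
  simp [eq_comm]

omit [DecidableEq ι] in
theorem es_zero (r : ι → ℚ) (T : Finset ι) : es r T 0 = 1 := by simp [es_eq]

theorem es_erase (r : ι → ℚ) (T : Finset ι) (x : ι) (hx : x ∈ T) (q : ℕ) :
    es r T (q + 1) = es r (T.erase x) (q + 1) + r x * es r (T.erase x) q := by
  simp only [es]
  rw [← mul_prod_erase T _ hx, add_mul, one_mul, coeff_add, mul_assoc, coeff_C_mul, coeff_X_mul]

theorem es_der (r : ι → ℚ) (T : Finset ι) (q : ℕ) :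
    es r T (q + 1) * (q + 1) = ∑ x ∈ T, r x * es r (T.erase x) q := by
  simp only [es]
  rw [← coeff_derivative, derivative_prod_finset, finsetSum_coeff]
  refine sum_congr rfl fun x _ => ?_
  rw [derivative_add, derivative_one, zero_add, derivative_C_mul_X, coeff_mul_C, mul_comm]

omit [DecidableEq ι] in
theorem es_abs_le (r : ι → ℚ) (T : Finset ι) (R : ℚ) (hR : 0 ≤ R) (h : ∀ x ∈ T, |r x| ≤ R)
    (q : ℕ) : |es r T q| ≤ (T.card * R) ^ q / q.factorial := by
  rw [es_eq]
  refine (abs_sum_le_sum_abs _ _).trans ?_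
  have h1 : ∀ t ∈ T.powersetCard q, |∏ i ∈ t, r i| ≤ R ^ q := fun t ht => by
    obtain ⟨h1, h2⟩ := mem_powersetCard.1 ht
    rw [abs_prod, ← h2, ← prod_const]
    exact prod_le_prod (fun _ _ => abs_nonneg _) fun i hi => h i (h1 hi)
  refine (sum_le_card_nsmul _ _ _ h1).trans ?_
  rw [card_powersetCard, nsmul_eq_mul, mul_pow, mul_div_right_comm]
  exact mul_le_mul_of_nonneg_right (Nat.choose_le_pow_div _ _) (by positivity)

theorem es_lower (r : ι → ℚ) (T : Finset ι) (R W : ℚ) (m : ℕ) (hR : 0 ≤ R) (hW : 0 < W)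
    (h : ∀ x ∈ T, |r x| ≤ R) (hs : W ≤ ∑ x ∈ T, r x) (h1 : 22 * m * R ≤ W)
    (h2 : 22 * m * (T.card * R ^ 2) ≤ 5 * W ^ 2) (q : ℕ) (hq : q ≤ m) :
    0 < es r T q ∧ (∀ x ∈ T, |es r (T.erase x) q| ≤ 11 / 10 * es r T q) ∧
      W / 2 * es r T q ≤ es r T (q + 1) * (q + 1) := by
  induction q with
  | zero =>
    refine ⟨by simp [es_zero], fun x _ => by simp [es_zero]; norm_num, ?_⟩
    have := es_der r T 0
    simp only [es_zero, mul_one] at this ⊢
    rw [this]; linarith
  | succ q ih =>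
    obtain ⟨i1, i2, i3⟩ := ih (by omega)
    have hq' : (q : ℚ) + 1 ≤ m := by exact_mod_cast hq
    have hq0 : (0 : ℚ) < q + 1 := by positivity
    have p1 : 0 < es r T (q + 1) := by
      have : 0 < es r T (q + 1) * (q + 1) := lt_of_lt_of_le (by positivity) i3
      exact (mul_pos_iff_of_pos_right hq0).1 this
    have i4 : W * es r T q ≤ 2 * m * es r T (q + 1) := by nlinarith
    refine ⟨p1, fun x hx => ?_, ?_⟩
    · have e := es_erase r T x hx q
      have b1 : |r x * es r (T.erase x) q| ≤ R * (11 / 10 * es r T q) := by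
        rw [abs_mul]; exact mul_le_mul (h x hx) (i2 x hx) (abs_nonneg _) hR
      have b2 : R * (11 / 10 * es r T q) ≤ 1 / 10 * es r T (q + 1) := by
        refine le_of_mul_le_mul_left ?_ hW
        have : R * (W * es r T q) ≤ R * (2 * m * es r T (q + 1)) := by gcongr
        nlinarith
      have := abs_le.1 b1
      rw [abs_le]; constructor <;> linarith
    · have e := es_der r T (q + 1)
      have e2 : ∑ x ∈ T, r x * es r (T.erase x) (q + 1)
          = (∑ x ∈ T, r x) * es r T (q + 1) - ∑ x ∈ T, r x ^ 2 * es r (T.erase x) q := by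
        rw [sum_mul, ← sum_sub_distrib]
        exact sum_congr rfl fun x hx => by rw [es_erase r T x hx q]; ring
      have b1 : ∑ x ∈ T, r x ^ 2 * es r (T.erase x) q ≤ T.card • (R ^ 2 * (11 / 10 * es r T q)) := by
        refine sum_le_card_nsmul _ _ _ fun x hx => ?_
        have a1 : r x ^ 2 ≤ R ^ 2 := by rw [← sq_abs]; gcongr; exact h x hx
        calc _ ≤ r x ^ 2 * (11 / 10 * es r T q) := by
              gcongr; exact (le_abs_self _).trans (i2 x hx)
          _ ≤ _ := by gcongr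
      rw [nsmul_eq_mul] at b1
      have b2 : T.card * (R ^ 2 * (11 / 10 * es r T q)) ≤ W / 2 * es r T (q + 1) := by
        refine le_of_mul_le_mul_left ?_ hW
        have : T.card * R ^ 2 * (W * es r T q) ≤ T.card * R ^ 2 * (2 * m * es r T (q + 1)) := by
          gcongr
        nlinarith
      have b3 : W * es r T (q + 1) ≤ (∑ x ∈ T, r x) * es r T (q + 1) := by gcongr
      rw [e, e2]; linarith

theorem es_ge (r : ι → ℚ) (T : Finset ι) (R W : ℚ) (m : ℕ) (hR : 0 ≤ R) (hW : 0 < W)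
    (h : ∀ x ∈ T, |r x| ≤ R) (hs : W ≤ ∑ x ∈ T, r x) (h1 : 22 * m * R ≤ W)
    (h2 : 22 * m * (T.card * R ^ 2) ≤ 5 * W ^ 2) (q : ℕ) (hq : q ≤ m) :
    (W / 2) ^ q / q.factorial ≤ es r T q := by
  induction q with
  | zero => simp [es_zero]
  | succ q ih =>
    have i1 := ih (by omega)
    have i2 := (es_lower r T R W m hR hW h hs h1 h2 q (by omega)).2.2
    have hq0 : (0 : ℚ) < q + 1 := by positivity
    refine le_of_mul_le_mul_right (le_trans ?_ i2) hq0
    calc _ = W / 2 * ((W / 2) ^ q / q.factorial) := by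
          rw [Nat.factorial_succ, pow_succ]; push_cast; field_simp
      _ ≤ _ := by gcongr

end

noncomputable def up (D j : ℕ) : ℚ[X] :=
  C (1 / (D.factorial : ℚ)) * ∏ x ∈ range D, (X + C ((j : ℚ) - x))

theorem up_eval (D j t : ℕ) : (up D j).eval (t : ℚ) = ((t + j).choose D : ℕ) := by
  rw [Nat.cast_choose_eq_descPochhammer_div, descPochhammer_eval_eq_prod_range, up, eval_mul,
    eval_C, eval_prod, mul_comm, mul_one_div]
  congr 1
  exact prod_congr rfl fun x _ => by simp; ring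

theorem up_high (D j i : ℕ) (hi : D < i) : (up D j).coeff i = 0 := by
  rw [up, coeff_C_mul, coeff_eq_zero_of_natDegree_lt, mul_zero]
  refine lt_of_le_of_lt (natDegree_prod_le _ _) ?_
  simp only [natDegree_X_add_C]
  simpa using hi

theorem up_coeff (D j q : ℕ) (hq : q ≤ D) :
    (up D j).coeff (D - q) = es (fun x : ℕ => (j : ℚ) - x) (range D) q / D.factorial := by
  rw [up, coeff_C_mul, Finset.prod_X_add_C_coeff _ _ (by simp), es_eq, card_range,
    show D - (D - q) = q by omega]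
  ring

theorem root_abs (c S k x : ℕ) (hS : S ≤ c + 1) (hx : x ∈ range (S + c)) :
    |((k + c : ℕ) : ℚ) - x| ≤ c + 1 + k := by
  have h1 : (x : ℚ) ≤ S + c := by exact_mod_cast (mem_range.1 hx).le
  have h2 : (S : ℚ) ≤ c + 1 := by exact_mod_cast hS
  have h3 : (0 : ℚ) ≤ x := by positivity
  have h4 : (0 : ℚ) ≤ k := by positivity
  rw [abs_le]; push_cast; constructor <;> linarith

theorem root_sum (c S k : ℕ) (hS : S ≤ c + 1) :
    ((S + c : ℕ) : ℚ) * k ≤ ∑ x ∈ range (S + c), (((k + c : ℕ) : ℚ) - x) := by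
  have h : ∀ D : ℕ, ∑ x ∈ range D, (((k + c : ℕ) : ℚ) - x) = D * (k + c) - D * (D - 1) / 2 := by
    intro D
    induction D with
    | zero => simp
    | succ D ih => rw [sum_range_succ, ih]; push_cast; ring
  have h2 : (S : ℚ) ≤ c + 1 := by exact_mod_cast hS
  have h3 : (0 : ℚ) ≤ S + c := by positivity
  rw [h]; push_cast; nlinarith

theorem geo (w : ℕ → ℕ) (K : ℕ) (hw : ∀ k < K, 2 * w k ≤ w (k + 1)) (j : ℕ) (hj : j ≤ K) :
    ∑ k ∈ range j, w k + w 0 ≤ w j := by
  induction j with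
  | zero => simp
  | succ j ih =>
    have := ih (by omega)
    have h2 := hw j (by omega)
    have : w 0 ≤ w 0 := le_rfl
    rw [sum_range_succ]; omega

theorem geo2 (w : ℕ → ℕ) (K : ℕ) (hw : ∀ k < K, 2 * w k ≤ w (k + 1)) (j i : ℕ) (hj : j + i ≤ K) :
    2 ^ i * w j ≤ w (j + i) := by
  induction i with
  | zero => simp
  | succ i ih =>
    have := ih (by omega)
    have h2 := hw (j + i) (by omega)
    rw [pow_succ, ← add_assoc]; nlinarith

theorem sum_pos_coef (c S m N q : ℕ) (w : ℕ → ℕ) (hS : S ≤ c + 1) (hm : 9999 * m ≤ S + c)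
    (hm2 : 5000 * m ≤ c + 1) (hN : (c + 1) / 36 < N) (h0 : 0 < w 0)
    (hw : 1 ≤ m → ∀ k < (c + 1) / 36, 2 * w k ≤ w (k + 1)) (hq : q ≤ m) :
    0 < ∑ k ∈ range N, (w k : ℚ) * es (fun x : ℕ => ((k + c : ℕ) : ℚ) - x) (range (S + c)) q := by
  rcases Nat.eq_zero_or_pos q with rfl | hq0
  · simp only [es_zero, mul_one]
    exact sum_pos' (fun _ _ => by positivity) ⟨0, mem_range.2 (by omega), by exact_mod_cast h0⟩
  replace hw := hw (by omega)
  set K := (c + 1) / 36 with hK
  set k0 := (c + 1) / 40 + 1 with hk0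
  set D := S + c with hD
  set e : ℕ → ℚ := fun k => es (fun x : ℕ => ((k + c : ℕ) : ℚ) - x) (range D) q
  have hDpos : (0 : ℚ) < D := by exact_mod_cast (show 0 < D by omega)
  have lo : ∀ k, k0 ≤ k → ((D * k : ℚ) / 2) ^ q / q.factorial ≤ e k := fun k hk => by
    have hk1 : (0 : ℚ) < k := by exact_mod_cast (show 0 < k by omega)
    have hk2 : (c : ℚ) + 1 ≤ 40 * k := by exact_mod_cast (show c + 1 ≤ 40 * k by omega)
    have hm' : (9999 : ℚ) * m ≤ D := by exact_mod_cast hm
    have hm0 : (0 : ℚ) ≤ m := by positivity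
    have hc0 : (0 : ℚ) ≤ c := by positivity
    refine es_ge _ _ (c + 1 + k) _ m (by positivity) (by positivity)
      (fun x hx => root_abs c S k x hS hx) (root_sum c S k hS) ?_ ?_ q hq
    · nlinarith
    · rw [card_range]
      have a1 : ((c : ℚ) + 1 + k) ^ 2 ≤ (41 * k) ^ 2 := by gcongr; linarith
      calc _ ≤ 22 * m * (D * (41 * k : ℚ) ^ 2) := by gcongr
        _ = D * k ^ 2 * (36982 * m) := by ring
        _ ≤ D * k ^ 2 * (5 * D) := mul_le_mul_of_nonneg_left (by linarith) (by positivity)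
        _ = _ := by ring
  have hi : ∀ k, k < k0 → -(128 ^ q * ((D * K : ℚ) / 2) ^ q / q.factorial) ≤ e k := fun k hk => by
    have := es_abs_le (fun x : ℕ => ((k + c : ℕ) : ℚ) - x) (range D) (c + 1 + k) (by positivity)
      (fun x hx => root_abs c S k x hS hx) q
    refine le_trans (neg_le_neg ?_) (abs_le.1 this).1
    have a1 : (c : ℚ) + 1 + k ≤ 64 * K := by exact_mod_cast (show c + 1 + k ≤ 64 * K by omega)
    rw [← mul_pow, card_range]
    have a2 : D * ((c : ℚ) + 1 + k) ≤ 128 * (D * K / 2) := by nlinarith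
    gcongr
  set u : ℚ := ((D * K : ℚ) / 2) ^ q / q.factorial with hu
  have hKpos : (0 : ℚ) < K := by exact_mod_cast (show 0 < K by omega)
  have upos : 0 < u := by positivity
  have g1 := geo w K hw k0 (by omega)
  have g2 := geo2 w K hw k0 (K - k0) (by omega)
  rw [show k0 + (K - k0) = K by omega] at g2
  have g3 : 128 ^ q ≤ 2 ^ (K - k0) := by
    rw [show 128 = 2 ^ 7 by norm_num, ← pow_mul]
    exact Nat.pow_le_pow_right (by norm_num) (by omega)
  have g4 : 128 ^ q * ∑ k ∈ range k0, w k < w K := by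
    calc _ < 128 ^ q * w k0 := by gcongr; omega
      _ ≤ 2 ^ (K - k0) * w k0 := by gcongr
      _ ≤ _ := g2
  have g5 : (128 : ℚ) ^ q * ∑ k ∈ range k0, (w k : ℚ) < w K := by exact_mod_cast g4
  rw [← sum_range_add_sum_Ico _ (show k0 ≤ N by omega)]
  have s1 : (∑ k ∈ range k0, (w k : ℚ)) * -(128 ^ q * u) ≤ ∑ k ∈ range k0, w k * e k := by
    rw [sum_mul]
    refine sum_le_sum fun k hk => ?_
    have := hi k (mem_range.1 hk)
    rw [mul_div_assoc] at this
    gcongr
  have s2 : w K * u ≤ ∑ k ∈ Ico k0 N, w k * e k := by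
    refine le_trans ?_ (single_le_sum (f := fun k => (w k : ℚ) * e k) (fun k hk => ?_)
      (mem_Ico.2 ⟨show k0 ≤ K by omega, hN⟩))
    · have := lo K (by omega)
      gcongr
    · exact mul_nonneg (by positivity) (le_trans (by positivity) (lo k (mem_Ico.1 hk).1))
  nlinarith

end Pool.Agent.Lib.MP_da4f77_co
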