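import Pool.Agent.Lib.MP_da4f77_co.Pair

set_option autoImplicit false

namespace Pool.Agent.Lib.MP_da4f77_co

open Finset Polynomial Sum

variable {A B : ℕ}

def rk : Option (Fin A) ⊕ Fin B → ℕ
  | inl none => 0
  | inl (some a) => A - a
  | inr b => A + 1 + b

def TV (A B t : ℕ) : Set (Option (Fin A) ⊕ Fin B → Option (Fin A) ⊕ Fin B → ℕ) :=
  {M | (∀ i j, rk j < rk i → M i j = 0) ∧
    ∀ k, ∑ j, M k j + M k k = (if rk k = 0 then t else 0) + ∑ i, M i k}

def glue (X : Option (Fin A) × Option (Fin B) → ℕ) (M₁ : Fin A → Fin A → ℕ)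
    (M₂ : Fin B → Fin B → ℕ) : Option (Fin A) ⊕ Fin B → Option (Fin A) ⊕ Fin B → ℕ
  | inl none, inl none => X (none, none)
  | inl none, inl (some k) => M₁ k k
  | inl (some _), inl none => 0
  | inl (some k), inl (some k') => if k' = k then X (some k, none) else M₁ k' k
  | inl i, inr j => X (i, some j)
  | inr _, inl _ => 0
  | inr j, inr j' => M₂ j j'

theorem sum_ite_upd (f : Fin A → ℕ) (k : Fin A) (x : ℕ) :
    ∑ k', (if k' = k then x else f k') + f k = x + ∑ k', f k' := by
  rw [← add_sum_erase univ _ (mem_univ k), ← add_sum_erase univ f (mem_univ k), if_pos rfl,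
    sum_congr rfl fun i hi => if_neg (ne_of_mem_erase hi)]
  ring

theorem glue_mem (t : ℕ) (X : Option (Fin A) × Option (Fin B) → ℕ) (M₁ : Fin A → Fin A → ℕ)
    (M₂ : Fin B → Fin B → ℕ) : glue X M₁ M₂ ∈ TV A B t ↔
      ∑ p, X p = t ∧ M₁ ∈ TesS univ (fun i => row X (some i)) ∧
        M₂ ∈ TesS univ (fun j => col X (some j)) := by
  have c0 : (∑ j, glue X M₁ M₂ (inl none) j + glue X M₁ M₂ (inl none) (inl none)
      = (if rk (B := B) (A := A) (inl none) = 0 then t else 0) + ∑ i, glue X M₁ M₂ i (inl none))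
      ↔ row X none + ∑ k, M₁ k k = t := by
    simp only [Fintype.sum_sum_type, Fintype.sum_option, glue, rk, row, sum_const_zero, if_true]
    omega
  have c1 : ∀ k, (∑ j, glue X M₁ M₂ (inl (some k)) j + glue X M₁ M₂ (inl (some k)) (inl (some k))
      = (if rk (B := B) (A := A) (inl (some k)) = 0 then t else 0)
        + ∑ i, glue X M₁ M₂ i (inl (some k)))
      ↔ ∑ j, M₁ k j + M₁ k k = row X (some k) + ∑ i, M₁ i k := by
    intro k
    have e1 := sum_ite_upd (fun k' => M₁ k' k) k (X (some k, none))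
    have e2 := sum_ite_upd (fun k' => M₁ k k') k (X (some k, none))
    have e3 : ∑ k', (if k = k' then X (some k', none) else M₁ k k')
        = ∑ k', (if k' = k then X (some k, none) else M₁ k k') :=
      sum_congr rfl fun k' _ => by
        by_cases h : k = k'
        · subst h; simp
        · rw [if_neg h, if_neg (Ne.symm h)]
    rw [if_neg (show ¬ rk (B := B) (A := A) (inl (some k)) = 0 by
      have := k.2; simp only [rk]; omega)]
    simp only [Fintype.sum_sum_type, Fintype.sum_option, glue, row, sum_const_zero, if_true, e3]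
    omega
  have c2 : ∀ k, (∑ j, glue X M₁ M₂ (inr k) j + glue X M₁ M₂ (inr k) (inr k)
      = (if rk (B := B) (A := A) (inr k) = 0 then t else 0) + ∑ i, glue X M₁ M₂ i (inr k))
      ↔ ∑ j, M₂ k j + M₂ k k = col X (some k) + ∑ i, M₂ i k := by
    intro k
    rw [if_neg (show ¬ rk (B := B) (A := A) (inr k) = 0 by simp only [rk]; omega)]
    simp only [Fintype.sum_sum_type, glue, col, sum_const_zero]
    omega
  have c3 : (∀ k, ∑ j, M₁ k j + M₁ k k = row X (some k) + ∑ i, M₁ i k) →
      row X none + ∑ k, M₁ k k = ∑ p, X p := fun h => by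
    have := sum_congr (rfl : (univ : Finset (Fin A)) = univ) fun k _ => h k
    rw [sum_add_distrib, sum_add_distrib, sum_comm] at this
    rw [← sum_row, Fintype.sum_option]
    omega
  simp only [TV, TesS, Set.mem_ofPred_eq, mem_univ, true_and, forall_const]
  constructor
  · rintro ⟨h1, h2⟩
    have d1 := fun k => (c1 k).1 (h2 _)
    refine ⟨(c3 d1).symm.trans (c0.1 (h2 _)), ⟨fun i j hij => ?_, d1⟩, fun i j hij => ?_,
      fun k => (c2 k).1 (h2 _)⟩
    · by_contra h
      have h' : j < i := not_le.1 h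
      have := h1 (inl (some j)) (inl (some i)) (by simp only [rk]; have := i.2; omega)
      simp only [glue, if_neg h'.ne'] at this
      exact hij this
    · by_contra h
      exact hij (h1 (inr i) (inr j) (by simp only [rk]; omega))
  · rintro ⟨h0, ⟨h1, h2⟩, h3, h4⟩
    refine ⟨fun i j hij => ?_, fun k => ?_⟩
    · rcases i with (_ | i) | i <;> rcases j with (_ | j) | j <;> simp only [rk] at hij <;>
        simp only [glue] <;> try omega
      · rw [if_neg (by rintro rfl; omega)]
        by_contra h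
        have := h1 _ _ h
        omega
      · by_contra h
        have := h3 _ _ h
        omega
    · rcases k with (_ | k) | k
      · exact c0.2 ((c3 h2).trans h0)
      · exact (c1 k).2 (h2 k)
      · exact (c2 k).2 (h4 k)

theorem TV_card (A B t : ℕ) : (TV A B t).ncard = Phi (fun β : Fin A → ℕ => (TesS univ β).ncard)
    (fun β : Fin B → ℕ => (TesS univ β).ncard) t := by
  have f1 := (tes_rep (univ : Finset (Fin A))).1
  have f2 := (tes_rep (univ : Finset (Fin B))).1
  let G : Finset (Σ _ : Option (Fin A) × Option (Fin B) → ℕ,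
      (Fin A → Fin A → ℕ) × (Fin B → Fin B → ℕ)) :=
    (piAntidiag univ t).sigma fun X =>
      (f1 fun i => row X (some i)).toFinset ×ˢ (f2 fun j => col X (some j)).toFinset
  have hinj : Function.Injective fun x : (Σ _ : Option (Fin A) × Option (Fin B) → ℕ,
      (Fin A → Fin A → ℕ) × (Fin B → Fin B → ℕ)) => glue x.1 x.2.1 x.2.2 := by
    rintro ⟨X, M₁, M₂⟩ ⟨X', M₁', M₂'⟩ h
    have e1 : X = X' := by
      funext ⟨i, j⟩
      rcases j with _ | j
      · rcases i with _ | i
        · exact congrFun₂ h (inl none) (inl none)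
        · simpa [glue] using congrFun₂ h (inl (some i)) (inl (some i))
      · simpa [glue] using congrFun₂ h (inl i) (inr j)
    have e2 : M₁ = M₁' := by
      funext i j
      by_cases hij : i = j
      · subst hij; exact congrFun₂ h (inl none) (inl (some i))
      · simpa [glue, hij] using congrFun₂ h (inl (some j)) (inl (some i))
    have e3 : M₂ = M₂' := by
      funext i j; exact congrFun₂ h (inr i) (inr j)
    rw [e1, e2, e3]
  have himg : TV A B t = (fun x : (Σ _ : Option (Fin A) × Option (Fin B) → ℕ,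
      (Fin A → Fin A → ℕ) × (Fin B → Fin B → ℕ)) => glue x.1 x.2.1 x.2.2) '' G := by
    ext M
    simp only [Set.mem_image, G, coe_sigma, Set.mem_sigma_iff, mem_coe, mem_product,
      Set.Finite.mem_toFinset, mem_piAntidiag, mem_univ, implies_true, and_true]
    constructor
    · intro hM
      have e : glue (fun p => p.2.elim (M (inl p.1) (inl p.1)) fun j => M (inl p.1) (inr j))
          (fun k' k => if k' = k then M (inl none) (inl (some k)) else M (inl (some k)) (inl (some k')))
          (fun j j' => M (inr j) (inr j')) = M := by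
        funext i j
        rcases i with (_ | i) | i <;> rcases j with (_ | j) | j <;> simp only [glue, Option.elim]
        · simp
        · exact (hM.1 _ _ (by simp only [rk]; have := i.2; omega)).symm
        · by_cases h : j = i
          · subst h; simp
          · simp [h]
        · exact (hM.1 _ _ (by simp only [rk]; omega)).symm
        · exact (hM.1 _ _ (by simp only [rk]; omega)).symm
      rw [← e] at hM
      exact ⟨⟨_, _, _⟩, (glue_mem t _ _ _).1 hM, e⟩
    · rintro ⟨⟨X, M₁, M₂⟩, h, rfl⟩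
      exact (glue_mem t _ _ _).2 h
  rw [himg, Set.ncard_image_of_injective _ hinj, Set.ncard_coe_finset, card_sigma]
  exact sum_congr rfl fun X _ => by
    rw [card_product, ← Set.ncard_eq_toFinset_card _ (f1 _), ← Set.ncard_eq_toFinset_card _ (f2 _)]

def eqv (A B : ℕ) : Option (Fin A) ⊕ Fin B ≃ Fin (A + 1 + B) :=
  (Equiv.sumCongr ((Equiv.optionCongr Fin.revPerm).trans (finSuccEquiv A).symm)
    (Equiv.refl _)).trans finSumFinEquiv

theorem eqv_val (x : Option (Fin A) ⊕ Fin B) : (eqv A B x).val = rk x := by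
  rcases x with (_ | x) | x
  · simp [eqv, rk]
  · have := x.2
    simp [eqv, rk]; omega
  · simp [eqv, rk]

theorem hook_iff {n : ℕ} (M : Fin n → Fin n → ℕ) (h : ∀ i j : Fin n, j < i → M i j = 0)
    (k : Fin n) (x : ℕ) :
    (∑ j : Fin n, (if k ≤ j then (M k j : ℤ) else 0))
      - (∑ i : Fin n, (if i < k then (M i k : ℤ) else 0)) = x
      ↔ ∑ j, M k j + M k k = x + ∑ i, M i k := by
  have e1 : ∑ j : Fin n, (if k ≤ j then (M k j : ℤ) else 0) = (∑ j, M k j : ℕ) := by
    push_cast
    refine sum_congr rfl fun j _ => ?_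
    split_ifs with hj
    · rfl
    · rw [h k j (not_le.1 hj)]; rfl
  have e2 : ∑ i : Fin n, (if i < k then (M i k : ℤ) else 0) + M k k = (∑ i, M i k : ℕ) := by
    push_cast
    rw [← add_sum_erase univ _ (mem_univ k), ← add_sum_erase univ (fun i => (M i k : ℤ)) (mem_univ k),
      if_neg (lt_irrefl k), zero_add, add_comm]
    congr 1
    refine sum_congr rfl fun i hi => ?_
    split_ifs with hj
    · rfl
    · rw [h i k (lt_of_le_of_ne (not_lt.1 hj) (ne_of_mem_erase hi).symm)]; rfl
  omega

theorem cry_card (A B t : ℕ) :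
    Set.ncard {M : Fin (A + 1 + B) → Fin (A + 1 + B) → ℕ | (∀ i j, j < i → M i j = 0) ∧
      ∀ k, (∑ j, (if k ≤ j then (M k j : ℤ) else 0)) - (∑ i, (if i < k then (M i k : ℤ) else 0))
        = (t : ℤ) * ((if k.val = 0 then (1 : ℕ) else 0 : ℕ) : ℤ)} = (TV A B t).ncard := by
  let e := eqv A B
  let E := (Equiv.arrowCongr e (Equiv.arrowCongr e (Equiv.refl ℕ))).symm
  rw [← Set.ncard_preimage_of_injective_subset_range (s := TV A B t) E.injective
    (by simp [E.surjective.range_eq])]
  congr 1
  ext M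
  have hE : ∀ i j, E M i j = M (e i) (e j) := fun _ _ => rfl
  simp only [Set.mem_preimage, TV, Set.mem_ofPred_eq, hE, ← eqv_val]
  have h1 : (∀ i j : Fin (A + 1 + B), j < i → M i j = 0) ↔
      ∀ i j, (eqv A B j).val < (eqv A B i).val → M (e i) (e j) = 0 := by
    refine ⟨fun h i j hij => h _ _ hij, fun h i j hij => ?_⟩
    obtain ⟨i, rfl⟩ := e.surjective i
    obtain ⟨j, rfl⟩ := e.surjective j
    exact h i j hij
  rw [← h1]
  refine and_congr_right fun h => ?_
  rw [e.surjective.forall]
  refine forall_congr' fun k => ?_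
  rw [Equiv.sum_comp e (fun j => M (e k) j), Equiv.sum_comp e (fun i => M i (e k)), ← hook_iff M h]
  have : (t : ℤ) * ((if (e k).val = 0 then (1 : ℕ) else 0 : ℕ) : ℤ)
      = ((if (eqv A B k).val = 0 then t else 0 : ℕ) : ℤ) := by
    show _ = ((if (e k).val = 0 then t else 0 : ℕ) : ℤ)
    split_ifs <;> simp
  rw [this]

theorem cry_top (n : ℕ) (hn : 1 ≤ n) : ∃ p : ℚ[X],
    (∀ t : ℕ, p.eval (t : ℚ) = (Set.ncard {M : Fin n → Fin n → ℕ | (∀ i j, j < i → M i j = 0) ∧
      ∀ k, (∑ j, (if k ≤ j then (M k j : ℤ) else 0)) - (∑ i, (if i < k then (M i k : ℤ) else 0))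
        = (t : ℤ) * ((if k.val = 0 then (1 : ℕ) else 0 : ℕ) : ℤ)} : ℕ)) ∧
    p.natDegree = n.choose 2 ∧
    ∀ i ≤ n.choose 2, 10000 * (n.choose 2 - i) ≤ n.choose 2 → 0 < p.coeff i := by
  obtain ⟨A, B, rfl, h1, h2⟩ : ∃ A B, n = A + 1 + B ∧ A ≤ B + 1 ∧ B ≤ A + 1 :=
    ⟨n - 1 - n / 2, n / 2, by omega⟩
  have hd : (A + 1 + B).choose 2 = A.choose 2 + B.choose 2 + (A * B + A + B) := by
    have e1 := two_choose A
    have e2 := two_choose B
    have e3 := two_choose (A + 1 + B)
    nlinarith
  rw [hd]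
  obtain ⟨p, p1, p2, p3⟩ := Phi_tes A B (A * B + A + B) _ (by ring) h1 h2 (Nat.mul_div_le _ 10000)
  refine ⟨p, fun t => by rw [p1, cry_card, TV_card], ?_, fun i hi h => p3 i hi (by omega)⟩
  exact le_antisymm (natDegree_le_iff_coeff_eq_zero.2 p2)
    (le_natDegree_of_ne_zero (p3 _ le_rfl (by omega)).ne')

end Pool.Agent.Lib.MP_da4f77_co
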