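import Pool.Agent.Lib.MP_da4f77_co.Tes

set_option autoImplicit false

namespace Pool.Agent.Lib.MP_da4f77_co

open Finset

variable {I J : Type*} [Fintype I] [DecidableEq I] [Fintype J] [DecidableEq J]

def row (X : I × J → ℕ) : I → ℕ := fun i => ∑ j, X (i, j)
def col (X : I × J → ℕ) : J → ℕ := fun j => ∑ i, X (i, j)

def wt (A B : ℕ) (a : I → ℕ) (b : J → ℕ) (Y : I × J → ℕ) : ℕ :=
  (∏ i, (a i + B).choose (row Y i + B)) * ∏ j, (b j + A).choose (col Y j + A)

def om (A B : ℕ) (a : I → ℕ) (b : J → ℕ) (k : ℕ) : ℕ :=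
  ∑ Y ∈ piAntidiag univ k, wt A B a b Y

omit [DecidableEq I] [DecidableEq J] in
theorem sum_row (X : I × J → ℕ) : ∑ i, row X i = ∑ c, X c := by
  rw [Fintype.sum_prod_type]; rfl

omit [DecidableEq I] [DecidableEq J] in
theorem sum_col (X : I × J → ℕ) : ∑ j, col X j = ∑ c, X c := by
  rw [Fintype.sum_prod_type_right]; rfl

theorem omega_eq (A B c : ℕ) (hA : Fintype.card I = A + 1) (hB : Fintype.card J = B + 1)
    (hc : (A + 1) * (B + 1) = c + 1) (a : I → ℕ) (b : J → ℕ) (N : ℕ) (hN : ∑ i, a i < N) (t : ℕ) :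
    ∑ X ∈ piAntidiag univ t, bin a (row X) * bin b (col X)
      = ∑ k ∈ range N, om A B a b k * (t + (k + c)).choose (∑ i, a i + ∑ j, b j + c) := by
  set E := Fintype.piFinset (fun i : I => piAntidiag (univ : Finset J) (a i))
  set F := Fintype.piFinset (fun j : J => piAntidiag (univ : Finset I) (b j))
  set Ys := Fintype.piFinset (fun _ : I × J => range N)
  have e1 : ∀ X : I × J → ℕ, bin a (row X) = ∑ e ∈ E, ∏ p : I × J, (X p).choose (e p.1 p.2) := by
    intro X
    simp only [bin, row, vand, prod_univ_sum, Fintype.prod_prod_type, E]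
  have e2 : ∀ X : I × J → ℕ, bin b (col X) = ∑ f ∈ F, ∏ p : I × J, (X p).choose (f p.2 p.1) := by
    intro X
    simp only [bin, col, vand, prod_univ_sum, Fintype.prod_prod_type_right, F]
  have e3 : ∀ e ∈ E, ∀ f ∈ F, ∑ X ∈ piAntidiag univ t,
      (∏ p : I × J, (X p).choose (e p.1 p.2)) * ∏ p : I × J, (X p).choose (f p.2 p.1)
      = ∑ Y ∈ Ys, ((∏ p : I × J, (e p.1 p.2).choose (Y p)) * ∏ p : I × J, (f p.2 p.1).choose (Y p))
        * (t + (∑ p, Y p + c)).choose (∑ i, a i + ∑ j, b j + c) := by
    intro e he f hf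
    have he' : ∀ i, ∑ j, e i j = a i := fun i =>
      (mem_piAntidiag.1 (Fintype.mem_piFinset.1 he i)).1
    have hf' : ∀ j, ∑ i, f j i = b j := fun j =>
      (mem_piAntidiag.1 (Fintype.mem_piFinset.1 hf j)).1
    have hlt : ∀ p : I × J, e p.1 p.2 < N := fun p => by
      have h1 : e p.1 p.2 ≤ ∑ j, e p.1 j :=
        single_le_sum (f := fun j => e p.1 j) (fun _ _ => Nat.zero_le _) (mem_univ _)
      have h2 : a p.1 ≤ ∑ i, a i := single_le_sum (fun _ _ => Nat.zero_le _) (mem_univ _)
      rw [he'] at h1; omega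
    have hS : ∑ p : I × J, (e p.1 p.2 + f p.2 p.1) = ∑ i, a i + ∑ j, b j := by
      rw [sum_add_distrib, Fintype.sum_prod_type, Fintype.sum_prod_type_right]
      simp only [he', hf']
    simp only [← prod_mul_distrib]
    rw [sum_congr rfl fun X _ => prod_congr rfl fun p _ => choose_mul_choose (X p) _ _ N (hlt p)]
    simp only [prod_univ_sum]
    rw [sum_comm]
    refine sum_congr rfl fun Y _ => ?_
    simp only [prod_mul_distrib, ← mul_sum]
    by_cases hY : ∀ p : I × J, Y p ≤ e p.1 p.2
    · rw [conv univ c (by simp [hA, hB, hc]) Y (fun p => e p.1 p.2 + f p.2 p.1)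
        (fun p _ => (hY p).trans (Nat.le_add_right _ _)), hS]
    · obtain ⟨p, hp⟩ := not_forall.1 hY
      rw [prod_eq_zero (mem_univ p) (Nat.choose_eq_zero_of_lt (by omega))]
      simp
  have e4 : ∀ Y : I × J → ℕ, ∑ e ∈ E, ∏ p : I × J, (e p.1 p.2).choose (Y p)
      = ∏ i, (a i + B).choose (row Y i + B) := by
    intro Y
    simp only [Fintype.prod_prod_type, E]
    rw [← prod_univ_sum (fun i : I => piAntidiag (univ : Finset J) (a i))
      (fun i ei => ∏ j, (ei j).choose (Y (i, j)))]
    refine prod_congr rfl fun i _ => ?_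
    have := conv (univ : Finset J) B (by simp [hB]) (fun _ => 0) (fun j => Y (i, j))
      (fun _ _ => Nat.zero_le _) (a i)
    simpa [row] using this
  have e5 : ∀ Y : I × J → ℕ, ∑ f ∈ F, ∏ p : I × J, (f p.2 p.1).choose (Y p)
      = ∏ j, (b j + A).choose (col Y j + A) := by
    intro Y
    simp only [Fintype.prod_prod_type_right, F]
    rw [← prod_univ_sum (fun j : J => piAntidiag (univ : Finset I) (b j))
      (fun j fj => ∏ i, (fj i).choose (Y (i, j)))]
    refine prod_congr rfl fun j _ => ?_
    have := conv (univ : Finset I) A (by simp [hA]) (fun _ => 0) (fun i => Y (i, j))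
      (fun _ _ => Nat.zero_le _) (b j)
    simpa [col] using this
  have e6 : ∑ X ∈ piAntidiag univ t, bin a (row X) * bin b (col X)
      = ∑ Y ∈ Ys, wt A B a b Y * (t + (∑ p, Y p + c)).choose (∑ i, a i + ∑ j, b j + c) := by
    simp only [e1, e2, sum_mul_sum]
    rw [sum_comm, sum_congr rfl fun e he => sum_comm.trans (sum_congr rfl fun f hf => e3 e he f hf),
      sum_congr rfl fun e _ => sum_comm, sum_comm]
    refine sum_congr rfl fun Y _ => ?_
    rw [wt, ← e4, ← e5, sum_mul_sum, sum_mul]
    exact sum_congr rfl fun e _ => by rw [sum_mul]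
  rw [e6, ← sum_filter_of_ne (p := fun Y : I × J → ℕ => ∑ p, Y p < N),
    ← sum_fiberwise_of_maps_to (t := range N) (g := fun Y : I × J → ℕ => ∑ p, Y p)]
  · refine sum_congr rfl fun k hk => ?_
    rw [om, sum_mul]
    refine sum_congr ?_ fun Y hY => ?_
    · ext Y
      simp only [mem_filter, mem_piAntidiag, mem_univ, implies_true, and_true, Ys,
        Fintype.mem_piFinset, mem_range] at hk ⊢
      refine ⟨fun h => h.2, fun h => ?_⟩
      have h' : ∑ p, Y p = k := h
      refine ⟨⟨fun p => ?_, by omega⟩, h⟩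
      have : Y p ≤ ∑ p, Y p := single_le_sum (fun _ _ => Nat.zero_le _) (mem_univ _)
      omega
    · rw [(mem_piAntidiag.1 hY).1]
  · intro Y hY; exact mem_range.2 (mem_filter.1 hY).2
  · intro Y _ hY
    have h1 : ∀ i, row Y i ≤ a i := fun i => by
      by_contra h
      apply hY
      rw [wt, prod_eq_zero (mem_univ i) (Nat.choose_eq_zero_of_lt (by omega))]
      simp
    have := sum_le_sum fun i (_ : i ∈ univ) => h1 i
    rw [sum_row] at this
    omega

theorem wt_step (A B : ℕ) (a : I → ℕ) (b : J → ℕ) (Y : I × J → ℕ) (p : I × J) :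
    wt A B a b (Y + Pi.single p 1) * ((row Y p.1 + B + 1) * (col Y p.2 + A + 1))
      = wt A B a b Y * ((a p.1 - row Y p.1) * (b p.2 - col Y p.2)) := by
  obtain ⟨i, j⟩ := p
  have hr : ∀ i', row (Y + Pi.single (i, j) 1) i' = row Y i' + if i' = i then 1 else 0 := by
    intro i'
    simp only [row, Pi.add_apply, sum_add_distrib, Pi.single_apply, Prod.mk.injEq]
    by_cases h : i' = i <;> simp [h]
  have hc : ∀ j', col (Y + Pi.single (i, j) 1) j' = col Y j' + if j' = j then 1 else 0 := by
    intro j'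
    simp only [col, Pi.add_apply, sum_add_distrib, Pi.single_apply, Prod.mk.injEq]
    by_cases h : j' = j <;> simp [h]
  have h1 : (∏ i', (a i' + B).choose (row (Y + Pi.single (i, j) 1) i' + B)) * (row Y i + B + 1)
      = (∏ i', (a i' + B).choose (row Y i' + B)) * (a i - row Y i) := by
    rw [← mul_prod_erase univ _ (mem_univ i), ← mul_prod_erase univ _ (mem_univ i),
      prod_congr rfl fun i' hi' => by rw [hr i', if_neg (ne_of_mem_erase hi'), add_zero],
      hr, if_pos rfl, show row Y i + 1 + B = row Y i + B + 1 by ring, mul_right_comm,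
      Nat.choose_succ_right_eq, show a i + B - (row Y i + B) = a i - row Y i by omega]
    ring
  have h2 : (∏ j', (b j' + A).choose (col (Y + Pi.single (i, j) 1) j' + A)) * (col Y j + A + 1)
      = (∏ j', (b j' + A).choose (col Y j' + A)) * (b j - col Y j) := by
    rw [← mul_prod_erase univ _ (mem_univ j), ← mul_prod_erase univ _ (mem_univ j),
      prod_congr rfl fun j' hj' => by rw [hc j', if_neg (ne_of_mem_erase hj'), add_zero],
      hc, if_pos rfl, show col Y j + 1 + A = col Y j + A + 1 by ring, mul_right_comm,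
      Nat.choose_succ_right_eq, show b j + A - (col Y j + A) = b j - col Y j by omega]
    ring
  simp only [wt]
  rw [mul_mul_mul_comm, h1, h2, mul_mul_mul_comm]

theorem om_grow (A B : ℕ) (hA : Fintype.card I = A + 1) (hB : Fintype.card J = B + 1)
    (a : I → ℕ) (b : J → ℕ) (k : ℕ) :
    om A B a b k * ((∑ i, a i - k) * (∑ j, b j - k))
      ≤ om A B a b (k + 1) * ((k + 1) ^ 2 + 3 * ((A + 1) * (B + 1)) * (k + 1)) := by
  set z : (I × J → ℕ) → I × J → ℕ := fun Y p => (row Y p.1 + B + 1) * (col Y p.2 + A + 1) with hz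
  have h1 : om A B a b k * ((∑ i, a i - k) * (∑ j, b j - k))
      ≤ ∑ p : I × J, ∑ Y ∈ piAntidiag univ k, wt A B a b (Y + Pi.single p 1) * z Y p := by
    rw [sum_comm, om, sum_mul]
    refine sum_le_sum fun Y hY => ?_
    have hk := (mem_piAntidiag.1 hY).1
    simp only [hz, wt_step, ← mul_sum]
    refine Nat.mul_le_mul_left _ ?_
    rw [Fintype.sum_prod_type]
    simp only [← mul_sum, ← sum_mul]
    refine Nat.mul_le_mul ?_ ?_
    · have : ∑ i, a i ≤ ∑ i, (a i - row Y i) + ∑ i, row Y i := by
        rw [← sum_add_distrib]; exact sum_le_sum fun i _ => by omega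
      rw [sum_row] at this
      have hk' : ∑ c, Y c = k := hk
      omega
    · have : ∑ j, b j ≤ ∑ j, (b j - col Y j) + ∑ j, col Y j := by
        rw [← sum_add_distrib]; exact sum_le_sum fun i _ => by omega
      rw [sum_col] at this
      have hk' : ∑ c, Y c = k := hk
      omega
  have h2 : ∀ p : I × J, ∑ Y ∈ piAntidiag univ k, wt A B a b (Y + Pi.single p 1) * z Y p
      ≤ ∑ Y ∈ piAntidiag univ (k + 1), wt A B a b Y * if Y p ≠ 0 then z Y p else 0 := by
    intro p
    have hinj : Set.InjOn (fun Y : I × J → ℕ => Y + Pi.single p 1)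
        (piAntidiag (univ : Finset (I × J)) k : Finset (I × J → ℕ)) :=
      fun x _ y _ h => add_right_cancel h
    calc _ ≤ ∑ Y ∈ piAntidiag univ k, (fun Y => wt A B a b Y * if Y p ≠ 0 then z Y p else 0)
            ((fun Y : I × J → ℕ => Y + Pi.single p 1) Y) := by
          refine sum_le_sum fun Y _ => Nat.mul_le_mul_left _ ?_
          rw [if_pos (by simp)]
          simp only [hz]
          refine Nat.mul_le_mul ?_ ?_
          · have : row Y p.1 ≤ row (Y + Pi.single p 1) p.1 :=
              sum_le_sum fun j _ => Nat.le_add_right _ _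
            omega
          · have : col Y p.2 ≤ col (Y + Pi.single p 1) p.2 :=
              sum_le_sum fun j _ => Nat.le_add_right _ _
            omega
      _ ≤ _ := by
          refine (sum_image (f := fun Y => wt A B a b Y * if Y p ≠ 0 then z Y p else 0)
            hinj).symm.trans_le (sum_le_sum_of_subset fun Y hY => ?_)
          obtain ⟨Y', hY', rfl⟩ := mem_image.1 hY
          have hk' : ∑ c, Y' c = k := (mem_piAntidiag.1 hY').1
          simp [mem_piAntidiag, sum_add_distrib, hk']
  refine h1.trans ((sum_le_sum fun p _ => h2 p).trans ?_)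
  rw [sum_comm, om, sum_mul]
  refine sum_le_sum fun Y hY => ?_
  rw [← mul_sum]
  refine Nat.mul_le_mul_left _ ?_
  have hk : ∑ c, Y c = k + 1 := (mem_piAntidiag.1 hY).1
  calc ∑ p : I × J, (if Y p ≠ 0 then z Y p else 0)
      ≤ ∑ p : I × J, (row Y p.1 * col Y p.2 + (A + 1) * row Y p.1 + (B + 1) * col Y p.2
        + (A + 1) * (B + 1) * Y p) := by
        refine sum_le_sum fun p _ => ?_
        split_ifs with h
        · have : 1 ≤ Y p := Nat.one_le_iff_ne_zero.2 h
          have : (A + 1) * (B + 1) * 1 ≤ (A + 1) * (B + 1) * Y p := Nat.mul_le_mul_left _ this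
          simp only [hz]; nlinarith
        · exact Nat.zero_le _
    _ = _ := by
        simp only [sum_add_distrib, ← mul_sum, hk]
        rw [Fintype.sum_prod_type, Fintype.sum_prod_type, Fintype.sum_prod_type_right]
        simp only [← mul_sum, ← sum_mul, sum_row, sum_col, hk, sum_const, card_univ, hA, hB,
          smul_eq_mul]
        ring

omit [DecidableEq J] in
theorem om_zero_pos (A B : ℕ) (a : I → ℕ) (b : J → ℕ) [DecidableEq J] : 0 < om A B a b 0 := by
  simp only [om, piAntidiag_zero, sum_singleton, wt, row, col, Pi.zero_apply, sum_const_zero,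
    zero_add]
  exact Nat.mul_pos (prod_pos fun i _ => Nat.choose_pos (by omega))
    (prod_pos fun i _ => Nat.choose_pos (by omega))

end Pool.Agent.Lib.MP_da4f77_co
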