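import Pool.Agent.Lib.MP_da4f77_co.Omega
import Pool.Agent.Lib.MP_da4f77_co.Coef

set_option autoImplicit false

namespace Pool.Agent.Lib.MP_da4f77_co

open Finset Polynomial

theorem two_choose (A : ℕ) : 2 * A.choose 2 + A = A * A := by
  induction A with
  | zero => simp
  | succ A ih => rw [Nat.choose_succ_succ' A 1]; simp only [Nat.choose_one_right]; nlinarith

theorem big_choose (A B c : ℕ) (hc : (A + 1) * (B + 1) = c + 1) (h2 : B ≤ A + 1)
    (h : 5000 ≤ c + 1) : 47 * (c + 1) ≤ 100 * A.choose 2 := by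
  have := two_choose A
  have hA : 68 ≤ A := by by_contra h'; nlinarith
  nlinarith

theorem pair {I J : Type*} [Fintype I] [DecidableEq I] [Fintype J] [DecidableEq J]
    (A B c m : ℕ) (hA : Fintype.card I = A + 1) (hB : Fintype.card J = B + 1)
    (hc : (A + 1) * (B + 1) = c + 1) (h1 : A ≤ B + 1) (h2 : B ≤ A + 1)
    (hm : 10000 * m ≤ A.choose 2 + B.choose 2 + c) (a : I → ℕ) (b : J → ℕ)
    (ha : ∑ i, a i ≤ A.choose 2) (hb : ∑ j, b j ≤ B.choose 2) :
    ∃ p : ℚ[X], (∀ t : ℕ, p.eval (t : ℚ)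
        = (∑ X ∈ piAntidiag univ t, bin a (row X) * bin b (col X) : ℕ)) ∧
      (∀ i, ∑ i, a i + ∑ j, b j + c < i → p.coeff i = 0) ∧
      ∀ i ≤ ∑ i, a i + ∑ j, b j + c, A.choose 2 + B.choose 2 + c ≤ i + m → 0 < p.coeff i := by
  set S := ∑ i, a i + ∑ j, b j with hS
  set N := ∑ i, a i + (c + 1) / 36 + 1 with hN
  have hs : A.choose 2 + B.choose 2 ≤ c + 1 := by
    have e1 := two_choose A
    have e2 := two_choose B
    rcases (show A = B + 1 ∨ A = B ∨ B = A + 1 by omega) with h | h | h <;> subst h <;> nlinarith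
  refine ⟨∑ k ∈ range N, C (om A B a b k : ℚ) * up (S + c) (k + c), fun t => ?_, fun i hi => ?_,
    fun i hi hi2 => ?_⟩
  · rw [omega_eq A B c hA hB hc a b N (by omega) t, eval_finsetSum]
    push_cast
    exact sum_congr rfl fun k _ => by rw [eval_mul, eval_C, up_eval]
  · rw [finsetSum_coeff]
    exact sum_eq_zero fun k _ => by rw [coeff_C_mul, up_high _ _ _ hi, mul_zero]
  · obtain ⟨q, e, hq1, hq2⟩ : ∃ q, i = S + c - q ∧ q ≤ S + c ∧ q ≤ m := ⟨S + c - i, by omega⟩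
    rw [finsetSum_coeff, e]
    simp only [coeff_C_mul, up_coeff _ _ _ hq1, ← mul_div_assoc, ← sum_div]
    refine div_pos (sum_pos_coef c S m N q _ (by omega) (by omega) (by omega) (by omega)
      (om_zero_pos A B a b) (fun hm1 k hk => ?_) hq2) (by positivity)
    have b1 := big_choose A B c hc h2 (by omega)
    have b2 := big_choose B A c (by rw [mul_comm, hc]) h1 (by omega)
    have g := om_grow A B hA hB a b k
    rw [hc] at g
    have x1 : 44 * (c + 1) ≤ 100 * (∑ i, a i - k) := by omega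
    have x2 : 44 * (c + 1) ≤ 100 * (∑ j, b j - k) := by omega
    have x3 : 36 * (k + 1) ≤ c + 1 := by omega
    generalize ∑ i, a i - k = x at g x1
    generalize ∑ j, b j - k = y at g x2
    generalize c + 1 = l at g x1 x2 x3
    have x4 : 44 * l * (44 * l) ≤ 100 * x * (100 * y) := Nat.mul_le_mul x1 x2
    have x5 : 36 * (k + 1) * (36 * (k + 1)) ≤ l * l := Nat.mul_le_mul x3 x3
    have x6 : l * (36 * (k + 1)) ≤ l * l := Nat.mul_le_mul_left _ x3
    have x7 : 2 * ((k + 1) ^ 2 + 3 * l * (k + 1)) ≤ x * y := by nlinarith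
    refine Nat.le_of_mul_le_mul_right (c := (k + 1) ^ 2 + 3 * l * (k + 1)) ?_ (by positivity)
    calc _ = om A B a b k * (2 * ((k + 1) ^ 2 + 3 * l * (k + 1))) := by ring
      _ ≤ om A B a b k * (x * y) := Nat.mul_le_mul_left _ x7
      _ ≤ _ := g

def Phi {A B : ℕ} (P : (Fin A → ℕ) → ℕ) (Q : (Fin B → ℕ) → ℕ) (t : ℕ) : ℕ :=
  ∑ X ∈ piAntidiag (univ : Finset (Option (Fin A) × Option (Fin B))) t,
    P (fun i => row X (some i)) * Q (fun j => col X (some j))

def Good (d m : ℕ) (f : ℕ → ℕ) : Prop :=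
  ∃ p : ℚ[X], (∀ t : ℕ, p.eval (t : ℚ) = f t) ∧ (∀ i, d < i → p.coeff i = 0) ∧
    ∀ i, d ≤ i + m → 0 ≤ p.coeff i

theorem Good.add {d m : ℕ} {f g : ℕ → ℕ} (hf : Good d m f) (hg : Good d m g) :
    Good d m (f + g) := by
  obtain ⟨p, p1, p2, p3⟩ := hf
  obtain ⟨q, q1, q2, q3⟩ := hg
  refine ⟨p + q, fun t => by simp [p1, q1], fun i hi => by simp [p2 i hi, q2 i hi],
    fun i hi => ?_⟩
  rw [coeff_add]; exact add_nonneg (p3 i hi) (q3 i hi)

theorem Good.zero (d m : ℕ) : Good d m 0 := ⟨0, by simp, by simp, by simp⟩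

theorem Phi_add_left {A B : ℕ} (P P' : (Fin A → ℕ) → ℕ) (Q : (Fin B → ℕ) → ℕ) :
    Phi (P + P') Q = Phi P Q + Phi P' Q := by
  funext t; simp [Phi, add_mul, sum_add_distrib]

theorem Phi_add_right {A B : ℕ} (P : (Fin A → ℕ) → ℕ) (Q Q' : (Fin B → ℕ) → ℕ) :
    Phi P (Q + Q') = Phi P Q + Phi P Q' := by
  funext t; simp [Phi, mul_add, sum_add_distrib]

theorem Phi_bin (A B c m : ℕ) (hc : (A + 1) * (B + 1) = c + 1) (h1 : A ≤ B + 1) (h2 : B ≤ A + 1)
    (hm : 10000 * m ≤ A.choose 2 + B.choose 2 + c) (a : Fin A → ℕ) (b : Fin B → ℕ)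
    (ha : ∑ i, a i ≤ A.choose 2) (hb : ∑ j, b j ≤ B.choose 2) :
    ∃ p : ℚ[X], (∀ t : ℕ, p.eval (t : ℚ) = Phi (bin a) (bin b) t) ∧
      (∀ i, ∑ i, a i + ∑ j, b j + c < i → p.coeff i = 0) ∧
      ∀ i ≤ ∑ i, a i + ∑ j, b j + c, A.choose 2 + B.choose 2 + c ≤ i + m → 0 < p.coeff i := by
  have := pair A B c m (by simp) (by simp) hc h1 h2 hm (fun i : Option (Fin A) => i.elim 0 a)
    (fun j : Option (Fin B) => j.elim 0 b) (by simpa using ha) (by simpa using hb)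
  simpa [Phi, bin] using this

theorem Phi_good (A B c m : ℕ) (hc : (A + 1) * (B + 1) = c + 1) (h1 : A ≤ B + 1) (h2 : B ≤ A + 1)
    (hm : 10000 * m ≤ A.choose 2 + B.choose 2 + c) (P : (Fin A → ℕ) → ℕ) (Q : (Fin B → ℕ) → ℕ)
    (hP : P ∈ Cl univ (A.choose 2)) (hQ : Q ∈ Cl univ (B.choose 2)) :
    Good (A.choose 2 + B.choose 2 + c) m (Phi P Q) := by
  induction hP using AddSubmonoid.closure_induction with
  | zero =>
    have : Phi (0 : (Fin A → ℕ) → ℕ) Q = (0 : ℕ → ℕ) := by funext t; simp [Phi]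
    rw [this]; exact Good.zero _ _
  | add g g' _ _ h h' => rw [Phi_add_left]; exact h.add h'
  | mem P hP =>
    obtain ⟨a, -, ha, rfl⟩ := hP
    induction hQ using AddSubmonoid.closure_induction with
    | zero =>
      have : Phi (bin a) (0 : (Fin B → ℕ) → ℕ) = (0 : ℕ → ℕ) := by funext t; simp [Phi]
      rw [this]; exact Good.zero _ _
    | add g g' _ _ h h' => rw [Phi_add_right]; exact h.add h'
    | mem Q hQ =>
      obtain ⟨b, -, hb, rfl⟩ := hQ
      obtain ⟨p, p1, p2, p3⟩ := Phi_bin A B c m hc h1 h2 hm a b ha hb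
      refine ⟨p, p1, fun i hi => p2 i (by omega), fun i hi => ?_⟩
      rcases le_or_gt i (∑ i, a i + ∑ j, b j + c) with h | h
      · exact (p3 i h hi).le
      · exact (p2 i h).ge

theorem Phi_tes (A B c m : ℕ) (hc : (A + 1) * (B + 1) = c + 1) (h1 : A ≤ B + 1) (h2 : B ≤ A + 1)
    (hm : 10000 * m ≤ A.choose 2 + B.choose 2 + c) :
    ∃ p : ℚ[X], (∀ t : ℕ, p.eval (t : ℚ) = Phi (fun β : Fin A → ℕ => (TesS univ β).ncard)
        (fun β : Fin B → ℕ => (TesS univ β).ncard) t) ∧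
      (∀ i, A.choose 2 + B.choose 2 + c < i → p.coeff i = 0) ∧
      ∀ i ≤ A.choose 2 + B.choose 2 + c, A.choose 2 + B.choose 2 + c ≤ i + m → 0 < p.coeff i := by
  obtain ⟨-, a, a1, a2, g, hg, e1⟩ := tes_rep (univ : Finset (Fin A))
  obtain ⟨-, b, b1, b2, h, hh, e2⟩ := tes_rep (univ : Finset (Fin B))
  simp only [card_univ, Fintype.card_fin] at a2 b2 hg hh
  obtain ⟨p, p1, p2, p3⟩ := Phi_bin A B c m hc h1 h2 hm a b a2.le b2.le
  rw [a2, b2] at p2 p3
  obtain ⟨q, q1, q2, q3⟩ := (Phi_good A B c m hc h1 h2 hm g _ hg (bin_mem b b1 b2.le)).add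
    (Phi_good A B c m hc h1 h2 hm _ h (AddSubmonoid.add_mem _ (bin_mem a a1 a2.le) hg) hh)
  refine ⟨p + q, fun t => ?_, fun i hi => by simp [p2 i hi, q2 i hi], fun i hi hi2 => ?_⟩
  · rw [e1, e2, Phi_add_right, Phi_add_left (bin a) g (bin b), eval_add, p1, q1]
    simp only [Pi.add_apply]; push_cast; ring
  · rw [coeff_add]; exact add_pos_of_pos_of_nonneg (p3 i hi hi2) (q3 i hi2)

end Pool.Agent.Lib.MP_da4f77_co
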