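import Pool.Agent.Lib.MP_da4f77_co.Binom

set_option autoImplicit false

namespace Pool.Agent.Lib.MP_da4f77_co

open Finset

variable {ι : Type*} [Fintype ι] [LinearOrder ι]

def bin (a : ι → ℕ) : (ι → ℕ) → ℕ := fun β => ∏ i, (β i).choose (a i)

def Cl (s : Finset ι) (d : ℕ) : AddSubmonoid ((ι → ℕ) → ℕ) :=
  AddSubmonoid.closure {g | ∃ a : ι → ℕ, (∀ i, a i ≠ 0 → i ∈ s) ∧ ∑ i, a i ≤ d ∧ g = bin a}

def TesS (s : Finset ι) (β : ι → ℕ) : Set (ι → ι → ℕ) :=
  {M | (∀ i j, M i j ≠ 0 → i ∈ s ∧ j ∈ s ∧ i ≤ j) ∧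
    ∀ k ∈ s, ∑ j, M k j + M k k = β k + ∑ i, M i k}

def Lam (s : Finset ι) (v : ι) (g : (ι → ℕ) → ℕ) : (ι → ℕ) → ℕ :=
  fun β => ∑ m ∈ piAntidiag (insert v s) (β v), g (β + m)

omit [LinearOrder ι] in
theorem bin_mem {s : Finset ι} {d : ℕ} (a : ι → ℕ) (h1 : ∀ i, a i ≠ 0 → i ∈ s)
    (h2 : ∑ i, a i ≤ d) : bin a ∈ Cl s d :=
  AddSubmonoid.subset_closure ⟨a, h1, h2, rfl⟩

theorem Lam_bin (s : Finset ι) (v : ι) (hv : v ∉ s) (a : ι → ℕ) (h1 : ∀ i, a i ≠ 0 → i ∈ s) :
    Lam s v (bin a) = ∑ q ∈ Fintype.piFinset (fun i => range (a i + 1)),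
      ∑ u ∈ range (∑ i, q i + s.card + 1),
        s.card.choose (∑ i, q i + s.card - u) • bin (a - q + Pi.single v u) := by
  funext β
  have hav : a v = 0 := by by_contra h; exact hv (h1 v h)
  simp only [Lam, Finset.sum_apply, Pi.smul_apply, smul_eq_mul]
  have e1 : ∀ m : ι → ℕ, bin a (β + m) = ∑ q ∈ Fintype.piFinset (fun i => range (a i + 1)),
      (∏ i, (m i).choose (q i)) * bin (a - q) β := by
    intro m
    simp only [bin, Pi.add_apply, Pi.sub_apply]
    rw [prod_congr rfl (fun i _ => by rw [add_comm (β i) (m i), vand2]), prod_univ_sum]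
    exact sum_congr rfl fun q _ => prod_mul_distrib
  simp only [e1]
  rw [sum_comm]
  refine sum_congr rfl fun q hq => ?_
  have hq' : ∀ i, q i ≤ a i := fun i => by
    have := Fintype.mem_piFinset.1 hq i
    simpa [Nat.lt_succ_iff] using this
  have hq0 : ∀ i, i ∉ insert v s → q i = 0 := fun i hi => by
    have : a i = 0 := by by_contra h; exact hi (mem_insert_of_mem (h1 i h))
    have := hq' i; omega
  rw [← sum_mul]
  have e2 : ∀ m : ι → ℕ, ∏ i, (m i).choose (q i)
      = ∏ i ∈ insert v s, (m i + (fun _ => 0) i).choose (q i) := by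
    intro m
    symm
    apply prod_subset_one_on_sdiff (subset_univ _)
    · intro i hi
      rw [hq0 i (mem_sdiff.1 hi).2]; simp
    · intro i _; simp
  have e3 : ∑ i ∈ insert v s, q i = ∑ i, q i :=
    sum_subset (subset_univ _) fun i _ hi => hq0 i hi
  simp only [e2]
  rw [conv (insert v s) s.card (card_insert_of_notMem hv) _ q (fun _ _ => Nat.zero_le _), e3]
  simp only [sum_const_zero, zero_add]
  rw [vand2, sum_mul]
  refine sum_congr rfl fun u _ => ?_
  have e4 : bin (a - q + Pi.single v u) β = (β v).choose u * bin (a - q) β := by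
    simp only [bin]
    rw [← mul_prod_erase univ _ (mem_univ v), ← mul_prod_erase univ _ (mem_univ v)]
    have : (a - q) v = 0 := by simp [hav]
    simp only [Pi.add_apply, this, Pi.single_eq_same, zero_add, Nat.choose_zero_right, one_mul]
    congr 1
    refine prod_congr rfl fun i hi => ?_
    rw [Pi.single_eq_of_ne (ne_of_mem_erase hi), add_zero]
  rw [e4]; ring

theorem term_mem (s : Finset ι) (v : ι) (d : ℕ) (a : ι → ℕ) (h1 : ∀ i, a i ≠ 0 → i ∈ s)
    (h2 : ∑ i, a i ≤ d) (q : ι → ℕ) (hq : q ∈ Fintype.piFinset (fun i => range (a i + 1)))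
    (u : ℕ) (hu : u ∈ range (∑ i, q i + s.card + 1)) (c : ℕ) :
    c • bin (a - q + Pi.single v u) ∈ Cl (insert v s) (d + s.card) := by
  have hq' : ∀ i, q i ≤ a i := fun i => by
    have := Fintype.mem_piFinset.1 hq i
    simpa [Nat.lt_succ_iff] using this
  refine AddSubmonoid.nsmul_mem _ (bin_mem _ ?_ ?_) c
  · intro i hi
    by_cases hiv : i = v
    · simp [hiv]
    · refine mem_insert_of_mem (h1 i ?_)
      simp only [Pi.add_apply, Pi.sub_apply, Pi.single_eq_of_ne hiv] at hi
      omega
  · simp only [Pi.add_apply, Pi.sub_apply, sum_add_distrib]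
    rw [sum_tsub_distrib _ (fun i _ => hq' i)]
    have : ∑ i, q i ≤ ∑ i, a i := sum_le_sum fun i _ => hq' i
    simp only [mem_range] at hu
    simp only [Finset.sum_pi_single', mem_univ, if_true]
    omega

omit [Fintype ι] in
theorem Lam_add (s : Finset ι) (v : ι) (g g' : (ι → ℕ) → ℕ) :
    Lam s v (g + g') = Lam s v g + Lam s v g' := by
  funext β; simp [Lam, sum_add_distrib]

theorem Lam_mem (s : Finset ι) (v : ι) (hv : v ∉ s) (d : ℕ) (g : (ι → ℕ) → ℕ) (hg : g ∈ Cl s d) :
    Lam s v g ∈ Cl (insert v s) (d + s.card) := by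
  induction hg using AddSubmonoid.closure_induction with
  | mem g hg =>
    obtain ⟨a, h1, h2, rfl⟩ := hg
    rw [Lam_bin s v hv a h1]
    exact AddSubmonoid.sum_mem _ fun q hq => AddSubmonoid.sum_mem _ fun u hu =>
      term_mem s v d a h1 h2 q hq u hu _
  | zero =>
    have : Lam s v 0 = 0 := by funext β; simp [Lam]
    rw [this]; exact AddSubmonoid.zero_mem _
  | add g g' _ _ h h' => rw [Lam_add]; exact AddSubmonoid.add_mem _ h h'

theorem Lam_top (s : Finset ι) (v : ι) (hv : v ∉ s) (d : ℕ) (a : ι → ℕ)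
    (h1 : ∀ i, a i ≠ 0 → i ∈ s) (h2 : ∑ i, a i ≤ d) :
    ∃ g ∈ Cl (insert v s) (d + s.card), Lam s v (bin a) = bin (a + Pi.single v s.card) + g := by
  have h0 : (0 : ι → ℕ) ∈ Fintype.piFinset (fun i => range (a i + 1)) := by
    simp [Fintype.mem_piFinset]
  have hu : s.card ∈ range (∑ i, (0 : ι → ℕ) i + s.card + 1) := by simp
  rw [Lam_bin s v hv a h1, ← add_sum_erase _ _ h0, ← add_sum_erase _ _ hu, add_assoc]
  refine ⟨_, ?_, by congr 1; simp⟩
  refine AddSubmonoid.add_mem _ (AddSubmonoid.sum_mem _ fun u hu' => ?_)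
    (AddSubmonoid.sum_mem _ fun q hq => AddSubmonoid.sum_mem _ fun u hu' => ?_)
  · exact term_mem s v d a h1 h2 0 h0 u (mem_of_mem_erase hu') _
  · exact term_mem s v d a h1 h2 q (mem_of_mem_erase hq) u hu' _

theorem tes_step (s : Finset ι) (v : ι) (hv : ∀ x ∈ s, v < x)
    (hfin : ∀ β, (TesS s β).Finite) (β : ι → ℕ) :
    (TesS (insert v s) β).Finite ∧
      (TesS (insert v s) β).ncard = Lam s v (fun γ => (TesS s γ).ncard) β := by
  have hvs : v ∉ s := fun h => lt_irrefl _ (hv v h)
  let G : Finset (Σ _ : ι → ℕ, ι → ι → ℕ) :=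
    (piAntidiag (insert v s) (β v)).sigma fun m => (hfin (β + m)).toFinset
  let φ : (Σ _ : ι → ℕ, ι → ι → ℕ) → ι → ι → ℕ := fun x => Function.update x.2 v x.1
  have hrow : ∀ γ, ∀ M ∈ TesS s γ, M v = 0 := fun γ M hM => by
    funext j; by_contra h; exact hvs (hM.1 v j h).1
  have hcol : ∀ (M : ι → ι → ℕ) (m : ι → ℕ) (k : ι), M v = 0 →
      ∑ i, Function.update M v m i k = m k + ∑ i, M i k := by
    intro M m k hM
    rw [← add_sum_erase univ _ (mem_univ v), ← add_sum_erase univ (fun i => M i k) (mem_univ v)]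
    simp only [Function.update_self, hM, Pi.zero_apply, zero_add]
    congr 1
    exact sum_congr rfl fun i hi => by rw [Function.update_of_ne (ne_of_mem_erase hi)]
  have hinj : Set.InjOn φ G := by
    rintro ⟨m, M⟩ h1 ⟨m', M'⟩ h2 h
    simp only [G, coe_sigma, Set.mem_sigma_iff, mem_coe, Set.Finite.mem_toFinset] at h1 h2
    have e1 : m = m' := by simpa [φ] using congrFun h v
    subst e1
    have e2 : M = M' := by
      funext i
      by_cases hi : i = v
      · rw [hi, hrow _ M h1.2, hrow _ M' h2.2]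
      · simpa [φ, Function.update_of_ne hi] using congrFun h i
    rw [e2]
  have himg : TesS (insert v s) β = φ '' G := by
    ext M
    simp only [Set.mem_image, G, coe_sigma, Set.mem_sigma_iff, mem_coe, Set.Finite.mem_toFinset,
      mem_piAntidiag]
    constructor
    · rintro ⟨h1, h2⟩
      have hz : (Function.update M v (0 : ι → ℕ)) v = 0 := Function.update_self ..
      have hM : Function.update (Function.update M v 0) v (M v) = M := by simp
      have hcv : ∑ i, M i v = M v v := by
        refine sum_eq_single v (fun i _ hi => ?_) (by simp)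
        by_contra h
        obtain ⟨hi1, -, hi3⟩ := h1 i v h
        exact absurd (hv i ((mem_insert.1 hi1).resolve_left hi)) (not_lt.2 hi3)
      refine ⟨⟨M v, Function.update M v 0⟩, ⟨⟨?_, fun j hj => (h1 v j hj).2.1⟩, ?_, ?_⟩, hM⟩
      · have := h2 v (mem_insert_self _ _)
        rw [hcv] at this
        rw [sum_subset (subset_univ _) fun j _ hj => by
          by_contra h; exact hj (h1 v j h).2.1]
        show ∑ j, M v j = β v
        omega
      · intro i j hij
        by_cases hi : i = v
        · simp [hi] at hij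
        · simp only [Function.update_of_ne hi] at hij
          obtain ⟨a1, a2, a3⟩ := h1 i j hij
          have a1' := (mem_insert.1 a1).resolve_left hi
          refine ⟨a1', (mem_insert.1 a2).resolve_left ?_, a3⟩
          rintro rfl
          exact absurd (hv i a1') (not_lt.2 a3)
      · intro k hk
        have hkv : k ≠ v := fun h => hvs (h ▸ hk)
        have := h2 k (mem_insert_of_mem hk)
        have e := hcol (Function.update M v 0) (M v) k hz
        rw [hM] at e
        simp only [Function.update_of_ne hkv, Pi.add_apply]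
        omega
    · rintro ⟨⟨m, M'⟩, ⟨⟨h1, h2⟩, h3⟩, rfl⟩
      have hz := hrow _ M' h3
      simp only at h1 h2 h3
      refine ⟨fun i j hij => ?_, fun k hk => ?_⟩
      · by_cases hi : i = v
        · subst hi
          simp only [φ, Function.update_self] at hij
          refine ⟨mem_insert_self _ _, h2 j hij, ?_⟩
          rcases mem_insert.1 (h2 j hij) with h | h
          · exact h.ge
          · exact (hv j h).le
        · simp only [φ, Function.update_of_ne hi] at hij
          obtain ⟨a1, a2, a3⟩ := h3.1 i j hij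
          exact ⟨mem_insert_of_mem a1, mem_insert_of_mem a2, a3⟩
      · simp only [φ]
        rw [hcol M' m k hz]
        rcases mem_insert.1 hk with h | h
        · subst h
          have e1 : ∑ i, M' i k = 0 := sum_eq_zero fun i _ => by
            by_contra h; exact hvs (h3.1 i k h).2.1
          have e2 : ∑ j, m j = β k := by
            rw [← h1]; symm
            exact sum_subset (subset_univ _) fun j _ hj => by by_contra h; exact hj (h2 j h)
          simp only [Function.update_self]
          omega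
        · have hkv : k ≠ v := fun h' => hvs (h' ▸ h)
          have := h3.2 k h
          simp only [Function.update_of_ne hkv, Pi.add_apply] at this ⊢
          omega
  rw [himg]
  refine ⟨(finite_toSet G).image _, ?_⟩
  rw [Set.InjOn.ncard_image hinj, Set.ncard_coe_finset, card_sigma]
  exact sum_congr rfl fun m _ => (Set.ncard_eq_toFinset_card _ _).symm

theorem tes_rep (s : Finset ι) : (∀ β, (TesS s β).Finite) ∧
    ∃ a : ι → ℕ, (∀ i, a i ≠ 0 → i ∈ s) ∧ ∑ i, a i = s.card.choose 2 ∧
      ∃ g ∈ Cl s (s.card.choose 2), (fun β => (TesS s β).ncard) = bin a + g := by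
  induction s using Finset.induction_on_min with
  | empty =>
    have h : ∀ β : ι → ℕ, TesS ∅ β = {0} := fun β => by
      ext M
      simp only [TesS, notMem_empty, false_and, imp_false, not_not, IsEmpty.forall_iff,
        implies_true, and_true, Set.mem_ofPred_eq, Set.mem_singleton_iff]
      exact ⟨fun h => by funext i j; exact h i j, fun h i j => by rw [h]; rfl⟩
    refine ⟨fun β => by rw [h]; exact Set.finite_singleton _, 0, by simp, by simp, 0,
      AddSubmonoid.zero_mem _, ?_⟩
    funext β; simp [h, bin]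
  | insert v s hv ih =>
    obtain ⟨hfin, a, h1, h2, g, hg, hrep⟩ := ih
    have hvs : v ∉ s := fun h => lt_irrefl _ (hv v h)
    have hc : (insert v s).card.choose 2 = s.card.choose 2 + s.card := by
      rw [card_insert_of_notMem hvs, Nat.choose_succ_succ' s.card 1]; simp [add_comm]
    obtain ⟨g', hg', e⟩ := Lam_top s v hvs _ a h1 h2.le
    refine ⟨fun β => (tes_step s v hv hfin β).1, a + Pi.single v s.card, ?_, ?_,
      g' + Lam s v g, ?_, ?_⟩
    · intro i hi
      by_cases hiv : i = v
      · simp [hiv]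
      · exact mem_insert_of_mem (h1 i (by simpa [Pi.single_eq_of_ne hiv] using hi))
    · simp [sum_add_distrib, h2, hc]
    · rw [hc]; exact AddSubmonoid.add_mem _ hg' (Lam_mem s v hvs _ g hg)
    · rw [← add_assoc, ← e, ← Lam_add, ← hrep]
      funext β; exact (tes_step s v hv hfin β).2

end Pool.Agent.Lib.MP_da4f77_co
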