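import Mathlib

set_option autoImplicit false

namespace Pool.Agent.Lib.MP_da4f77_co

open Finset Polynomial

section
variable {ι : Type*} [DecidableEq ι]

noncomputable def er (r : ι → ℝ) (T : Finset ι) (q : ℕ) : ℝ :=
  (∏ x ∈ T, (1 + C (r x) * X) : ℝ[X]).coeff q

omit [DecidableEq ι] in
theorem er_eq (r : ι → ℝ) (T : Finset ι) (q : ℕ) :
    er r T q = ∑ t ∈ T.powersetCard q, ∏ i ∈ t, r i := by
  rw [er, prod_one_add, finsetSum_coeff, powersetCard_eq_filter, sum_filter]
  refine sum_congr rfl fun t _ => ?_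
  rw [prod_mul_distrib, prod_const, ← map_prod, coeff_C_mul_X_pow]
  simp [eq_comm]

omit [DecidableEq ι] in
theorem er_zero (r : ι → ℝ) (T : Finset ι) : er r T 0 = 1 := by simp [er_eq]

theorem er_erase (r : ι → ℝ) (T : Finset ι) (x : ι) (hx : x ∈ T) (q : ℕ) :
    er r T (q + 1) = er r (T.erase x) (q + 1) + r x * er r (T.erase x) q := by
  simp only [er]
  rw [← mul_prod_erase T _ hx, add_mul, one_mul, coeff_add, mul_assoc, coeff_C_mul, coeff_X_mul]

theorem er_der (r : ι → ℝ) (T : Finset ι) (q : ℕ) :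
    er r T (q + 1) * (q + 1) = ∑ x ∈ T, r x * er r (T.erase x) q := by
  simp only [er]
  rw [← coeff_derivative, derivative_prod_finset, finsetSum_coeff]
  refine sum_congr rfl fun x _ => ?_
  rw [derivative_add, derivative_one, zero_add, derivative_C_mul_X, coeff_mul_C, mul_comm]

theorem er_lower (r : ι → ℝ) (T : Finset ι) (R W S : ℝ) (m : ℕ) (hR : 0 ≤ R) (hW : 0 < W)
    (h : ∀ x ∈ T, |r x| ≤ R) (hs : W ≤ ∑ x ∈ T, r x) (hS : ∑ x ∈ T, r x ^ 2 ≤ S)
    (h1 : 14 * m * R ≤ W) (h2 : 14 * m * S ≤ 3 * W ^ 2) (q : ℕ) (hq : q ≤ m) :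
    0 < er r T q ∧ (∀ x ∈ T, |er r (T.erase x) q| ≤ 7 / 6 * er r T q) ∧
      W / 2 * er r T q ≤ er r T (q + 1) * (q + 1) := by
  have hS0 : 0 ≤ S := le_trans (sum_nonneg fun _ _ => sq_nonneg _) hS
  induction q with
  | zero =>
    refine ⟨by simp [er_zero], fun x _ => by simp [er_zero]; norm_num, ?_⟩
    have := er_der r T 0
    simp only [er_zero, mul_one] at this ⊢
    rw [this]; linarith
  | succ q ih =>
    obtain ⟨i1, i2, i3⟩ := ih (by omega)
    have hq' : (q : ℝ) + 1 ≤ m := by exact_mod_cast hq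
    have hq0 : (0 : ℝ) < q + 1 := by positivity
    have p1 : 0 < er r T (q + 1) := by
      have : 0 < er r T (q + 1) * (q + 1) := lt_of_lt_of_le (by positivity) i3
      exact (mul_pos_iff_of_pos_right hq0).1 this
    have i4 : W * er r T q ≤ 2 * m * er r T (q + 1) := by nlinarith
    refine ⟨p1, fun x hx => ?_, ?_⟩
    · have e := er_erase r T x hx q
      have b1 : |r x * er r (T.erase x) q| ≤ R * (7 / 6 * er r T q) := by
        rw [abs_mul]; exact mul_le_mul (h x hx) (i2 x hx) (abs_nonneg _) hR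
      have b2 : R * (7 / 6 * er r T q) ≤ 1 / 6 * er r T (q + 1) := by
        refine le_of_mul_le_mul_left ?_ hW
        have : R * (W * er r T q) ≤ R * (2 * m * er r T (q + 1)) := by gcongr
        nlinarith
      have := abs_le.1 b1
      rw [abs_le]; constructor <;> linarith
    · have e := er_der r T (q + 1)
      have e2 : ∑ x ∈ T, r x * er r (T.erase x) (q + 1)
          = (∑ x ∈ T, r x) * er r T (q + 1) - ∑ x ∈ T, r x ^ 2 * er r (T.erase x) q := by
        rw [sum_mul, ← sum_sub_distrib]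
        exact sum_congr rfl fun x hx => by rw [er_erase r T x hx q]; ring
      have b1 : ∑ x ∈ T, r x ^ 2 * er r (T.erase x) q ≤ S * (7 / 6 * er r T q) := by
        refine le_trans ?_ (mul_le_mul_of_nonneg_right hS (by positivity))
        rw [sum_mul]
        refine sum_le_sum fun x hx => ?_
        exact mul_le_mul_of_nonneg_left ((le_abs_self _).trans (i2 x hx)) (sq_nonneg _)
      have b2 : S * (7 / 6 * er r T q) ≤ W / 2 * er r T (q + 1) := by
        refine le_of_mul_le_mul_left ?_ hW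
        have : S * (W * er r T q) ≤ S * (2 * m * er r T (q + 1)) := by gcongr
        nlinarith
      have b3 : W * er r T (q + 1) ≤ (∑ x ∈ T, r x) * er r T (q + 1) := by gcongr
      rw [e, e2]; linarith

end

theorem esymm_pos (T : Multiset ℝ) (R W S : ℝ) (m : ℕ) (hR : 0 ≤ R) (hW : 0 < W)
    (h : ∀ x ∈ T, |x| ≤ R) (hs : W ≤ T.sum) (hS : (T.map (· ^ 2)).sum ≤ S)
    (h1 : 14 * m * R ≤ W) (h2 : 14 * m * S ≤ 3 * W ^ 2) (q : ℕ) (hq : q ≤ m) :
    0 < T.esymm q := by
  obtain ⟨l, rfl⟩ : ∃ l : List ℝ, T = l := ⟨T.toList, (Multiset.coe_toList T).symm⟩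
  have e : (l : Multiset ℝ) = (univ : Finset (Fin l.length)).val.map l.get := by
    rw [Fin.univ_val_map, List.ofFn_get]
  rw [e] at h hs hS ⊢
  rw [Finset.esymm_map_val, ← er_eq]
  rw [Multiset.map_map] at hS
  exact (er_lower l.get univ R W S m hR hW
    (fun x hx => h _ (Multiset.mem_map_of_mem _ hx)) hs hS h1 h2 q hq).1

noncomputable def pr (T : Multiset ℝ) : ℝ[X] := (T.map fun r => X + C r).prod

noncomputable def cone (T : Multiset ℝ) : AddSubmonoid ℝ[X] :=
  AddSubmonoid.closure {p | ∃ c : ℝ, ∃ U : Multiset ℝ, 0 ≤ c ∧ U ≤ T ∧ p = C c * pr U}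

theorem pr_add (T U : Multiset ℝ) : pr (T + U) = pr T * pr U := by simp [pr]

theorem pr_mem (T : Multiset ℝ) : pr T ∈ cone T :=
  AddSubmonoid.subset_closure ⟨1, T, zero_le_one, le_rfl, by simp⟩

theorem cone_mono {T U : Multiset ℝ} (h : T ≤ U) {p : ℝ[X]} (hp : p ∈ cone T) : p ∈ cone U := by
  refine AddSubmonoid.closure_mono ?_ hp
  rintro _ ⟨c, V, h1, h2, h3⟩
  exact ⟨c, V, h1, h2.trans h, h3⟩

theorem cone_mul {T U : Multiset ℝ} {p q : ℝ[X]} (hp : p ∈ cone T) (hq : q ∈ cone U) :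
    p * q ∈ cone (T + U) := by
  induction hp using AddSubmonoid.closure_induction with
  | zero => rw [zero_mul]; exact AddSubmonoid.zero_mem _
  | add a b _ _ ha hb => rw [add_mul]; exact AddSubmonoid.add_mem _ ha hb
  | mem p hp =>
    obtain ⟨c, V, h1, h2, rfl⟩ := hp
    induction hq using AddSubmonoid.closure_induction with
    | zero => rw [mul_zero]; exact AddSubmonoid.zero_mem _
    | add a b _ _ ha hb => rw [mul_add]; exact AddSubmonoid.add_mem _ ha hb
    | mem q hq =>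
      obtain ⟨c', V', h1', h2', rfl⟩ := hq
      exact AddSubmonoid.subset_closure ⟨c * c', V + V', mul_nonneg h1 h1', add_le_add h2 h2', by
        rw [pr_add, map_mul]; ring⟩

theorem cone_C {T : Multiset ℝ} {p : ℝ[X]} (hp : p ∈ cone T) (c : ℝ) (hc : 0 ≤ c) :
    C c * p ∈ cone T := by
  have h : C c ∈ cone 0 := AddSubmonoid.subset_closure ⟨c, 0, hc, le_rfl, by simp [pr]⟩
  simpa using cone_mul h hp

def Dom (T : Multiset ℝ) (p : ℝ[X]) : Prop := ∃ g ∈ cone T, p = pr T + g

theorem Dom.mem {T : Multiset ℝ} {p : ℝ[X]} (h : Dom T p) : p ∈ cone T := by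
  obtain ⟨g, hg, rfl⟩ := h
  exact AddSubmonoid.add_mem _ (pr_mem T) hg

theorem Dom.refl (T : Multiset ℝ) : Dom T (pr T) := ⟨0, AddSubmonoid.zero_mem _, by simp⟩

theorem Dom.mul {T U : Multiset ℝ} {p q : ℝ[X]} (hp : Dom T p) (hq : Dom U q) :
    Dom (T + U) (p * q) := by
  have hq' := hq.mem
  obtain ⟨g, hg, rfl⟩ := hp
  obtain ⟨g', hg', e⟩ := hq
  refine ⟨pr T * g' + g * q, AddSubmonoid.add_mem _ (cone_mul (pr_mem T) hg') (cone_mul hg hq'), ?_⟩
  rw [pr_add, add_mul, ← add_assoc, ← mul_add, ← e]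

theorem Dom.prod {ι : Type*} (s : Finset ι) (T : ι → Multiset ℝ) (p : ι → ℝ[X])
    (h : ∀ i ∈ s, Dom (T i) (p i)) : Dom (∑ i ∈ s, T i) (∏ i ∈ s, p i) := by
  classical
  induction s using Finset.induction_on with
  | empty => simpa [pr] using Dom.refl 0
  | insert a s ha ih =>
    rw [sum_insert ha, prod_insert ha]
    exact (h a (mem_insert_self _ _)).mul (ih fun i hi => h i (mem_insert_of_mem hi))

theorem pr_high (U : Multiset ℝ) (i : ℕ) (hi : U.card < i) : (pr U).coeff i = 0 := by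
  refine coeff_eq_zero_of_natDegree_lt (lt_of_le_of_lt ?_ hi)
  refine (natDegree_multiset_prod_le _).trans ?_
  simp [Multiset.map_map]

theorem cone_high {T : Multiset ℝ} {p : ℝ[X]} (hp : p ∈ cone T) (i : ℕ) (hi : T.card < i) :
    p.coeff i = 0 := by
  induction hp using AddSubmonoid.closure_induction with
  | zero => simp
  | add a b _ _ ha hb => rw [coeff_add, ha, hb, add_zero]
  | mem p hp =>
    obtain ⟨c, V, -, h2, rfl⟩ := hp
    rw [coeff_C_mul, pr_high V i (lt_of_le_of_lt (Multiset.card_le_card h2) hi), mul_zero]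

theorem Dom.coeff_pos {T : Multiset ℝ} {p : ℝ[X]} (hp : Dom T p) (R W S : ℝ) (m : ℕ) (hR : 0 ≤ R)
    (hW : 0 < W) (h : ∀ x ∈ T, |x| ≤ R) (hs : W + m * R ≤ T.sum) (hS : (T.map (· ^ 2)).sum ≤ S)
    (h1 : 14 * m * R ≤ W) (h2 : 14 * m * S ≤ 3 * W ^ 2) (i : ℕ) (hi : i ≤ T.card)
    (hi2 : T.card ≤ i + m) : 0 < p.coeff i := by
  have key : ∀ U ≤ T, i ≤ U.card → 0 < (pr U).coeff i := by
    intro U hU hc
    obtain ⟨V, rfl⟩ := Multiset.le_iff_exists_add.1 hU
    rw [pr, Multiset.prod_X_add_C_coeff _ hc]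
    rw [Multiset.card_add] at hi2
    refine esymm_pos U R W S m hR hW (fun x hx => h x (Multiset.mem_add.2 (Or.inl hx))) ?_ ?_ h1 h2
      _ (by omega)
    · have a1 : V.sum ≤ V.card • R := Multiset.sum_le_card_nsmul _ _ fun x hx =>
        (le_abs_self _).trans (h x (Multiset.mem_add.2 (Or.inr hx)))
      rw [nsmul_eq_mul] at a1
      have a2 : (V.card : ℝ) ≤ m := by exact_mod_cast (show V.card ≤ m by omega)
      have a3 : (V.card : ℝ) * R ≤ m * R := by gcongr
      rw [Multiset.sum_add] at hs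
      linarith
    · rw [Multiset.map_add, Multiset.sum_add] at hS
      have : 0 ≤ (V.map (· ^ 2)).sum := Multiset.sum_nonneg fun y hy => by
        obtain ⟨x, -, rfl⟩ := Multiset.mem_map.1 hy
        exact sq_nonneg x
      linarith
  obtain ⟨g, hg, rfl⟩ := hp
  rw [coeff_add]
  refine add_pos_of_pos_of_nonneg (key T le_rfl hi) ?_
  induction hg using AddSubmonoid.closure_induction with
  | zero => simp
  | add a b _ _ ha hb => rw [coeff_add]; exact add_nonneg ha hb
  | mem p hp =>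
    obtain ⟨c, V, h1, h2, rfl⟩ := hp
    rw [coeff_C_mul]
    refine mul_nonneg h1 ?_
    rcases le_or_gt i V.card with hc | hc
    · exact (key V h2 hc).le
    · exact (pr_high V i hc).ge

end Pool.Agent.Lib.MP_da4f77_co
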