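import Pool.Agent.Lib.MP_da4f77_co.TtSup

set_option autoImplicit false

namespace Pool.Agent.Lib.MP_da4f77_co

open Finset PowerSeries

noncomputable def o1 : ℚ⟦X⟧ := PowerSeries.mk 1

theorem o1_eq : o1 = 1 + X * o1 := by
  have h : o1 * (1 - X) = 1 := PowerSeries.mk_one_mul_one_sub_eq_one ℚ
  linear_combination h

theorem FF_add (y : ℚ) (m : ℕ) :
    PowerSeries.mk (mu (y + (m + 1))) = o1 ^ (m + 1) * PowerSeries.mk (mu y) := by
  induction m with
  | zero => simp [mu_series, mul_comm, o1]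
  | succ m ih =>
    have : y + (((m + 1 : ℕ) : ℚ) + 1) = y + (m + 1) + 1 := by push_cast; ring
    rw [this, mu_series, ih, o1]; ring

theorem FF_nat (a : ℕ) : PowerSeries.mk (mu (a + 1)) = o1 ^ (a + 1) := by
  have h0 : PowerSeries.mk (mu 0) = 1 := by
    ext j
    cases j with
    | zero => simp [mu_zero]
    | succ j => simp [mu, prod_range_succ', coeff_one]
  have := FF_add 0 a
  rwa [zero_add, h0, mul_one] at this

noncomputable def DD (m u : ℕ) : ℚ := coeff u ((1 + X) ^ m * o1 ^ (m + 1))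

theorem DD_zero_right (m : ℕ) : DD m 0 = 1 := by simp [DD, o1]

theorem DD_zero_left (u : ℕ) : DD 0 u = 1 := by simp [DD, o1]

theorem DD_rec (m u : ℕ) : DD (m + 1) (u + 1) = DD (m + 1) u + DD m (u + 1) + DD m u := by
  have h : (1 + X) ^ (m + 1) * o1 ^ (m + 1 + 1) = X * ((1 + X) ^ (m + 1) * o1 ^ (m + 1 + 1))
      + (1 + X) ^ m * o1 ^ (m + 1) + X * ((1 + X) ^ m * o1 ^ (m + 1)) := by
    linear_combination ((1 + X) ^ (m + 1) * o1 ^ (m + 1)) * o1_eq
  have h2 := congrArg (coeff (u + 1)) h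
  rw [map_add, map_add, coeff_succ_X_mul, coeff_succ_X_mul] at h2
  exact h2

theorem DD_symm (m u : ℕ) : DD m u = DD u m := by
  induction m generalizing u with
  | zero => rw [DD_zero_left, DD_zero_right]
  | succ m ih =>
    induction u with
    | zero => rw [DD_zero_left, DD_zero_right]
    | succ u ihu => rw [DD_rec, DD_rec, ihu, ih, ih u]; ring

theorem ER_zero (k s : ℕ) : coeff (k + s) ((1 + X) ^ k * o1) = (2 : ℚ) ^ k := by
  induction k generalizing s with
  | zero => simp [o1]
  | succ k ih =>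
    have h : (1 + X) ^ (k + 1) * o1 = (1 + X) ^ k * o1 + X * ((1 + X) ^ k * o1) := by ring
    rw [h, map_add, show k + 1 + s = k + s + 1 by ring, coeff_succ_X_mul, ih, add_assoc, ih]
    ring

theorem ER (k s a : ℕ) : coeff a ((1 + X) ^ s * o1 ^ (s + k + 1)) * (2 : ℚ) ^ k
    = coeff (k + s) ((1 + X) ^ (a + k) * o1 ^ (a + 1)) := by
  induction k generalizing a with
  | zero => simpa [DD] using DD_symm s a
  | succ k ih =>
    induction a with
    | zero =>
      rw [zero_add, zero_add, pow_one, ER_zero]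
      simp [o1]
    | succ a iha =>
      have h1 : (1 + X) ^ s * o1 ^ (s + (k + 1) + 1)
          = X * ((1 + X) ^ s * o1 ^ (s + (k + 1) + 1)) + (1 + X) ^ s * o1 ^ (s + k + 1) := by
        linear_combination ((1 + X) ^ s * o1 ^ (s + k + 1)) * o1_eq
      have h2 : (1 + X) ^ (a + 1 + (k + 1)) * o1 ^ (a + 1 + 1)
          = (1 + X) ^ (a + (k + 1)) * o1 ^ (a + 1)
            + (X * ((1 + X) ^ (a + 1 + k) * o1 ^ (a + 1 + 1))
              + X * ((1 + X) ^ (a + 1 + k) * o1 ^ (a + 1 + 1))) := by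
        linear_combination ((1 + X) ^ (a + k + 1) * o1 ^ (a + 1)) * o1_eq
      have h3 := congrArg (coeff (a + 1)) h1
      rw [map_add, coeff_succ_X_mul] at h3
      rw [h3, h2, map_add, map_add, ← iha, show k + 1 + s = k + s + 1 by ring, coeff_succ_X_mul,
        ← ih]
      ring

noncomputable def kap (A : ℕ) (B : ℚ) (j : ℕ) : ℚ := coeff j ((1 + X) ^ A * PowerSeries.mk (mu B))

theorem kap_add (A m : ℕ) (B : ℚ) (j : ℕ) :
    kap (A + m) (B + (m + 1)) j = ∑ u ∈ range (j + 1), kap A B (j - u) * DD u m := by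
  have h : (1 + X) ^ (A + m) * PowerSeries.mk (mu (B + (m + 1)))
      = ((1 + X) ^ m * o1 ^ (m + 1)) * ((1 + X) ^ A * PowerSeries.mk (mu B)) := by
    rw [FF_add]; ring
  rw [kap, h, coeff_mul, Finset.Nat.sum_antidiagonal_eq_sum_range_succ_mk]
  exact sum_congr rfl fun u _ => by rw [mul_comm, DD_symm]; rfl

theorem coeff_prod_pi' {ι : Type*} [DecidableEq ι] (f : ι → ℚ⟦X⟧) (d : ℕ) (s : Finset ι) :
    coeff d (∏ j ∈ s, f j) = ∑ l ∈ piAntidiag s d, ∏ i ∈ s, coeff (l i) (f i) := by
  rw [PowerSeries.coeff_prod, finsuppAntidiag, sum_map]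
  exact Finset.sum_attach (piAntidiag s d) (fun l => ∏ i ∈ s, coeff (l i) (f i))

theorem lidskii2 (n : ℕ) (β : Fin n → ℕ) :
    (((TesS (univ : Finset (Fin n)) β).ncard : ℕ) : ℚ) * 2 ^ n.choose 2
      = LL n fun p => ∏ i, kap (β i + oo n i) (β i + 1 - i.val) (p.1 i) := by
  induction n with
  | zero => rw [lidskii, LL_zero, LL_zero]; simp
  | succ n ih =>
    rw [tes_succ, LL_succ, choose_two_succ, pow_add, mul_comm ((2 : ℚ) ^ n), ← mul_assoc]
    push_cast
    rw [sum_mul]
    simp only [ih]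
    rw [LL_sum, mul_comm, ← LL_mul]
    refine LL_congr fun p _ => ?_
    have e1 : ∀ m : Fin (n + 1) → ℕ,
        ∏ i : Fin n, kap (β i.succ + m i.succ + oo n i)
          (((β i.succ + m i.succ : ℕ) : ℚ) + 1 - i.val) (p.1 i)
        = ∑ u ∈ box p.1, (∏ i : Fin n, kap (β i.succ + oo n i) (β i.succ + 1 - (i.succ).val)
          (p.1 i - u i)) * ∏ i : Fin n, DD (u i) (m i.succ) := by
      intro m
      have : ∀ i : Fin n, kap (β i.succ + m i.succ + oo n i)
          (((β i.succ + m i.succ : ℕ) : ℚ) + 1 - i.val) (p.1 i)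
          = ∑ u ∈ range (p.1 i + 1), kap (β i.succ + oo n i) (β i.succ + 1 - (i.succ).val)
            (p.1 i - u) * DD u (m i.succ) := fun i => by
        rw [← kap_add]
        congr 1
        · ring
        · simp only [Fin.val_succ]; push_cast; ring
      rw [prod_congr rfl fun i _ => this i, prod_univ_sum]
      exact sum_congr rfl fun u _ => prod_mul_distrib
    simp only [e1]
    rw [sum_comm, mul_sum]
    refine sum_congr rfl fun u _ => ?_
    rw [← mul_sum, Fin.prod_univ_succ, mul_left_comm, mul_comm]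
    simp only [stp, Fin.cons_zero, Fin.cons_succ, oo_succ, oo_zero, Fin.val_zero, Nat.cast_zero,
      sub_zero, Pi.sub_apply]
    congr 1
    have h := coeff_prod_pi' (Fin.cons o1 fun i => (1 + X) ^ u i * o1 ^ (u i + 1) :
      Fin (n + 1) → ℚ⟦X⟧) (β 0) univ
    simp only [Fin.prod_univ_succ, Fin.cons_zero, Fin.cons_succ] at h
    have h1 : ∀ k, coeff k o1 = 1 := fun k => by simp [o1]
    simp only [h1, one_mul] at h
    have h2 : o1 * ∏ i, (1 + X) ^ u i * o1 ^ (u i + 1)
        = (1 + X) ^ (∑ i, u i) * o1 ^ (∑ i, u i + n + 1) := by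
      rw [prod_mul_distrib, prod_pow_eq_pow_sum, prod_pow_eq_pow_sum, sum_add_distrib]
      simp only [sum_const, card_univ, Fintype.card_fin, smul_eq_mul, mul_one]
      ring
    rw [kap, FF_nat, ← ER, ← h2, h, mul_comm]
    rfl

theorem kap_zero (A : ℕ) (B : ℚ) : kap A B 0 = 1 := by simp [kap, mu_zero]

theorem kap_ode (A : ℕ) (B : ℚ) :
    (1 - X * X) * d⁄dX ℚ ((1 + X) ^ A * PowerSeries.mk (mu B))
      = (C (A + B) + C (B - A) * X) * ((1 + X) ^ A * PowerSeries.mk (mu B)) := by
  have h1 : (1 + X) * d⁄dX ℚ ((1 + X) ^ A) = C (A : ℚ) * (1 + X) ^ A := by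
    induction A with
    | zero => simp
    | succ A ih =>
      rw [pow_succ, Derivation.leibniz, map_add, Derivation.map_one_eq_zero, derivative_X]
      simp only [smul_eq_mul, Nat.cast_add, Nat.cast_one, map_add, map_one]
      linear_combination (1 + X) * ih
  have h2 : (1 - X) * d⁄dX ℚ (PowerSeries.mk (mu B)) = C B * PowerSeries.mk (mu B) := by
    have hs : ∀ j : ℕ, mu B (j + 1) * (j + 1) = mu B j * (B + j) := fun j => by
      simp only [mu]
      rw [prod_range_succ, Nat.factorial_succ]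
      have : (j.factorial : ℚ) ≠ 0 := by positivity
      push_cast
      field_simp
    ext j
    rw [sub_mul, one_mul, map_sub, coeff_C_mul, coeff_derivative, coeff_mk, coeff_mk, hs]
    cases j with
    | zero => simp [mul_comm]
    | succ j => rw [coeff_succ_X_mul, coeff_derivative, coeff_mk]; push_cast; ring
  rw [Derivation.leibniz]
  simp only [smul_eq_mul, map_add, map_sub]
  linear_combination ((1 - X) * PowerSeries.mk (mu B)) * h1 + ((1 + X) * (1 + X) ^ A) * h2

theorem kap_one (A : ℕ) (B : ℚ) : kap A B 1 = A + B := by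
  have h := congrArg (coeff 0) (kap_ode A B)
  rw [sub_mul, add_mul, mul_assoc, mul_assoc, one_mul, map_sub, map_add, coeff_C_mul, coeff_C_mul,
    coeff_zero_X_mul, coeff_zero_X_mul, coeff_derivative] at h
  have h0 := kap_zero A B
  simp only [kap] at h0 ⊢
  rw [h0] at h
  simpa using h

theorem kap_rec (A : ℕ) (B : ℚ) (j : ℕ) :
    kap A B (j + 2) * (j + 2) = (A + B) * kap A B (j + 1) - (A - B - j) * kap A B j := by
  have h := congrArg (coeff (j + 1)) (kap_ode A B)
  rw [sub_mul, add_mul, mul_assoc, mul_assoc, one_mul, map_sub, map_add, coeff_C_mul, coeff_C_mul,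
    coeff_succ_X_mul, coeff_succ_X_mul, coeff_derivative] at h
  have h1 : coeff j (X * d⁄dX ℚ ((1 + X) ^ A * PowerSeries.mk (mu B))) = kap A B j * j := by
    cases j with
    | zero => simp
    | succ j => rw [coeff_succ_X_mul, coeff_derivative]; push_cast; rfl
  rw [h1] at h
  simp only [kap] at h ⊢
  push_cast at h
  linear_combination h

end Pool.Agent.Lib.MP_da4f77_co
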