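import Pool.Agent.Lib.MP_da4f77_co.TkEs

set_option autoImplicit false

namespace Pool.Agent.Lib.MP_da4f77_co

open Finset Polynomial

noncomputable def PK (K : Type) [Field K] (M : ℕ) (ρ : K) : ℕ → K[X]
  | 0 => 1
  | 1 => X + C ρ
  | j + 2 => (X + C ρ) * PK K M ρ (j + 1) - C (((j : K) + 1) * (M - (j + 1)) / 4) * PK K M ρ j

theorem PK_map {K L : Type} [Field K] [Field L] (φ : K →+* L) (M : ℕ) (ρ : K) (j : ℕ) :
    (PK K M ρ j).map φ = PK L M (φ ρ) j := by
  induction j using Nat.twoStepInduction with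
  | zero => simp [PK]
  | one => simp [PK]
  | more j h0 h1 =>
    simp only [PK, Polynomial.map_sub, Polynomial.map_mul, Polynomial.map_add, map_X, map_C, h0, h1,
      map_div₀, map_mul, map_add, map_sub, map_natCast, map_one, map_ofNat]

theorem PK_eval {K : Type} [Field K] (M : ℕ) (ρ z : K) (j : ℕ) :
    (PK K M ρ (j + 2)).eval z = (z + ρ) * (PK K M ρ (j + 1)).eval z
      - ((j : K) + 1) * (M - (j + 1)) / 4 * (PK K M ρ j).eval z := by
  simp only [PK, eval_sub, eval_mul, eval_add, eval_X, eval_C]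

theorem PK_coeff {K : Type} [Field K] (M : ℕ) (ρ : K) (j : ℕ) :
    (∀ i, j < i → (PK K M ρ j).coeff i = 0) ∧ (PK K M ρ j).coeff j = 1 := by
  induction j using Nat.twoStepInduction with
  | zero => exact ⟨fun i hi => by simp [PK, coeff_one, hi.ne'], by simp [PK]⟩
  | one =>
    refine ⟨fun i hi => ?_, by simp [PK]⟩
    obtain ⟨i, rfl⟩ : ∃ k, i = k + 2 := ⟨i - 2, by omega⟩
    simp [PK, coeff_X]
  | more j h0 h1 =>
    refine ⟨fun i hi => ?_, ?_⟩
    · obtain ⟨i, rfl⟩ : ∃ k, i = k + 1 := ⟨i - 1, by omega⟩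
      rw [PK, add_mul, coeff_sub, coeff_add, coeff_X_mul, coeff_C_mul, coeff_C_mul,
        h1.1 _ (by omega), h1.1 _ (by omega), h0.1 _ (by omega)]
      ring
    · rw [PK, add_mul, coeff_sub, coeff_add, coeff_X_mul, coeff_C_mul, coeff_C_mul,
        h1.2, h1.1 _ (by omega), h0.1 _ (by omega)]
      ring

theorem PK_next {K : Type} [Field K] (M : ℕ) (ρ : K) (j : ℕ) :
    (PK K M ρ (j + 1)).coeff j = (j + 1) * ρ := by
  induction j with
  | zero => simp [PK]
  | succ j ih =>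
    rw [PK, add_mul, coeff_sub, coeff_add, coeff_X_mul, coeff_C_mul, coeff_C_mul, ih,
      (PK_coeff M ρ (j + 1)).2, (PK_coeff M ρ j).1 _ (by omega)]
    push_cast; ring

theorem PK_deg {K : Type} [Field K] (M : ℕ) (ρ : K) (j : ℕ) : (PK K M ρ j).natDegree = j :=
  le_antisymm (natDegree_le_iff_coeff_eq_zero.2 (PK_coeff M ρ j).1)
    (le_natDegree_of_ne_zero (by rw [(PK_coeff M ρ j).2]; exact one_ne_zero))

theorem PK_monic {K : Type} [Field K] (M : ℕ) (ρ : K) (j : ℕ) : (PK K M ρ j).Monic := by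
  rw [Monic, leadingCoeff, PK_deg, (PK_coeff M ρ j).2]

theorem PK_im (M : ℕ) (ρ : ℝ) (z : ℂ) (hz : z.im ≠ 0) (k : ℕ) (hk : k ≤ M) :
    0 < z.im * ((PK ℂ M ρ (k + 1)).eval z * (starRingEnd ℂ) ((PK ℂ M ρ k).eval z)).im := by
  induction k with
  | zero => simpa [PK] using hz
  | succ k ih =>
    have h := ih (by omega)
    rw [PK_eval]
    set a := (PK ℂ M ρ (k + 1)).eval z
    set b := (PK ℂ M ρ k).eval z
    obtain ⟨β, hβ, e⟩ : ∃ β : ℝ, 0 ≤ β ∧ ((k : ℂ) + 1) * (M - (k + 1)) / 4 = β := by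
      refine ⟨((k : ℝ) + 1) * (M - (k + 1)) / 4, ?_, by push_cast; ring⟩
      have : (k : ℝ) + 1 ≤ M := by exact_mod_cast hk
      have : (0 : ℝ) ≤ M - (k + 1) := by linarith
      positivity
    rw [e]
    have ha : 0 < a.re ^ 2 + a.im ^ 2 := by
      by_contra hh
      have h1 : a.re = 0 := by nlinarith [sq_nonneg a.re, sq_nonneg a.im]
      have h2 : a.im = 0 := by nlinarith [sq_nonneg a.re, sq_nonneg a.im]
      simp [h1, h2] at h
    have hz2 : 0 < z.im ^ 2 := by positivity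
    have e2 : z.im * (((z + ρ) * a - β * b) * (starRingEnd ℂ) a).im
        = z.im ^ 2 * (a.re ^ 2 + a.im ^ 2) + β * (z.im * (a * (starRingEnd ℂ) b).im) := by
      simp only [Complex.mul_im, Complex.mul_re, Complex.sub_im, Complex.sub_re, Complex.add_im,
        Complex.add_re, Complex.ofReal_im, Complex.ofReal_re, Complex.conj_im, Complex.conj_re]
      ring
    rw [e2]
    positivity

theorem PK_splits (M : ℕ) (ρ : ℝ) (j : ℕ) (hj : j ≤ M) : (PK ℝ M ρ j).Splits := by
  refine Splits.of_splits_map Complex.ofRealHom (IsAlgClosed.splits _) fun z hz => ?_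
  rw [PK_map] at hz
  have h0 : (PK ℂ M (ρ : ℂ) j).eval z = 0 := (mem_roots'.1 hz).2
  by_cases h : z.im = 0
  · exact ⟨z.re, by apply Complex.ext <;> simp [h]⟩
  · exfalso
    cases j with
    | zero => simp [PK] at h0
    | succ j =>
      have := PK_im M ρ z h j (by omega)
      simp [h0] at this

theorem PK_far (M : ℕ) (ρ x : ℝ) (hx : (M : ℝ) / 2 < |x + ρ|) (k : ℕ) (hk : k ≤ M) :
    0 < |(PK ℝ M ρ k).eval x| ∧
      |x + ρ| / 2 * |(PK ℝ M ρ k).eval x| ≤ |(PK ℝ M ρ (k + 1)).eval x| := by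
  have hM : (0 : ℝ) ≤ M := by positivity
  have hw : 0 < |x + ρ| := by linarith
  induction k with
  | zero => simp [PK]
  | succ k ih =>
    obtain ⟨h1, h2⟩ := ih (by omega)
    refine ⟨lt_of_lt_of_le (by positivity) h2, ?_⟩
    rw [PK_eval]
    set a := (PK ℝ M ρ (k + 1)).eval x
    set b := (PK ℝ M ρ k).eval x
    set β : ℝ := ((k : ℝ) + 1) * (M - (k + 1)) / 4 with hβ
    have b0 : 0 ≤ β := by
      have : (k : ℝ) + 1 ≤ M := by exact_mod_cast hk
      have : (0 : ℝ) ≤ M - (k + 1) := by linarith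
      positivity
    have b1 : β ≤ |x + ρ| ^ 2 / 4 := by
      have : β ≤ (M / 2) ^ 2 / 4 := by rw [hβ]; nlinarith [sq_nonneg ((M : ℝ) / 2 - (k + 1))]
      have : ((M : ℝ) / 2) ^ 2 ≤ |x + ρ| ^ 2 := by gcongr
      linarith
    have b2 := abs_sub_abs_le_abs_sub ((x + ρ) * a) (β * b)
    rw [abs_mul, abs_mul, abs_of_nonneg b0] at b2
    have b3 : β * |b| ≤ |x + ρ| ^ 2 / 4 * |b| := by gcongr
    have b4 : |x + ρ| / 2 * (|x + ρ| / 2 * |b|) ≤ |x + ρ| / 2 * |a| := by gcongr
    nlinarith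

theorem PK_low (M : ℕ) (ρ : ℝ) (j : ℕ) (hj : j ≤ M) : ∃ T : Multiset ℝ, T.card = j ∧
    (∀ r ∈ T, |r - ρ| ≤ (M : ℝ) / 2) ∧ T.sum = j * ρ ∧ PK ℝ M ρ j = pr T := by
  have hs := PK_splits M ρ j hj
  have e : PK ℝ M ρ j = pr ((PK ℝ M ρ j).roots.map Neg.neg) := by
    rw [pr, Multiset.map_map]
    simpa [sub_eq_add_neg] using hs.eq_prod_roots_of_monic (PK_monic M ρ j)
  have hc : ((PK ℝ M ρ j).roots.map Neg.neg).card = j := by
    rw [Multiset.card_map, ← hs.natDegree_eq_card_roots, PK_deg]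
  refine ⟨_, hc, fun r hr => ?_, ?_, e⟩
  · obtain ⟨x, hx, rfl⟩ := Multiset.mem_map.1 hr
    have h0 : (PK ℝ M ρ j).eval x = 0 := (mem_roots'.1 hx).2
    by_contra h
    have := (PK_far M ρ x (by
      rw [show -x - ρ = -(x + ρ) by ring, abs_neg] at h; exact not_le.1 h) j hj).1
    simp [h0] at this
  · cases j with
    | zero => rw [Multiset.card_eq_zero.1 hc]; simp
    | succ j =>
      have h1 := PK_next M ρ j
      rw [e, pr, Multiset.prod_X_add_C_coeff _ (by omega), hc, Nat.add_sub_cancel_left] at h1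
      rw [Nat.cast_succ, ← h1]
      simp [Multiset.esymm, Multiset.powersetCard_one]

theorem PK_dom (M : ℕ) (ρ : ℝ) (j : ℕ) : ∃ T : Multiset ℝ, T.card = j ∧
    (∀ r ∈ T, |r - ρ| ≤ (M : ℝ) / 2) ∧ T.sum = j * ρ ∧ Dom T (PK ℝ M ρ j) := by
  rcases le_total j M with hj | hj
  · obtain ⟨T, h1, h2, h3, h4⟩ := PK_low M ρ j hj
    exact ⟨T, h1, h2, h3, h4 ▸ Dom.refl T⟩
  · obtain ⟨m, rfl⟩ := Nat.exists_eq_add_of_le hj
    obtain ⟨T, h1, h2, h3, h4⟩ := PK_low M ρ M le_rfl
    have hX : Dom {ρ} (X + C ρ) := by simpa [pr] using Dom.refl {ρ}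
    refine ⟨Multiset.replicate m ρ + T, by simp [h1, add_comm], fun r hr => ?_, ?_, ?_⟩
    · rcases Multiset.mem_add.1 hr with h | h
      · rw [Multiset.eq_of_mem_replicate h, sub_self, abs_zero]; positivity
      · exact h2 r h
    · rw [Multiset.sum_add, h3, Multiset.sum_replicate, nsmul_eq_mul]; push_cast; ring
    · clear hj
      induction m using Nat.twoStepInduction with
      | zero => simpa [← h4] using h4 ▸ Dom.refl T
      | one =>
        have : PK ℝ M ρ (M + 1) = (X + C ρ) * PK ℝ M ρ M := by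
          cases M with
          | zero => simp [PK]
          | succ M => rw [PK]; simp
        rw [this]
        exact hX.mul (h4 ▸ Dom.refl T)
      | more m i0 i1 =>
        have e : PK ℝ M ρ (M + (m + 2)) = (X + C ρ) * PK ℝ M ρ (M + (m + 1))
            + C (((M : ℝ) + m + 1) * (m + 1) / 4) * PK ℝ M ρ (M + m) := by
          rw [show M + (m + 2) = M + m + 2 by ring, PK, sub_eq_add_neg, ← neg_mul, ← map_neg]
          congr 3
          push_cast; ring
        obtain ⟨g, hg, e2⟩ := hX.mul i1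
        have e3 : Multiset.replicate (m + 2) ρ + T = {ρ} + (Multiset.replicate (m + 1) ρ + T) := by
          rw [Multiset.replicate_succ ρ (m + 1), Multiset.cons_add, Multiset.singleton_add]
        rw [e, e2, e3, add_assoc]
        refine ⟨_, AddSubmonoid.add_mem _ hg (cone_mono ?_ (cone_C i0.mem _ (by positivity))), rfl⟩
        exact le_trans (add_le_add_left (Multiset.replicate_le_replicate ρ |>.2 (by omega)) T)
          (Multiset.le_add_left _ _)

end Pool.Agent.Lib.MP_da4f77_co
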