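import Pool.Agent.Lib.MP_da4f77_co.TkForm
import Pool.Agent.Lib.MP_da4f77_co.TkRoot

set_option autoImplicit false

namespace Pool.Agent.Lib.MP_da4f77_co

open Finset Polynomial

theorem kap_PK (A M : ℕ) (B t ρ : ℚ) (h1 : A + B = 2 * (t + ρ)) (h2 : A - B = M - 1) (j : ℕ) :
    kap A B j * j.factorial = 2 ^ j * (PK ℚ M ρ j).eval t := by
  induction j using Nat.twoStepInduction with
  | zero => simp [kap_zero, PK]
  | one => simp [kap_one, PK, h1]
  | more j i0 i1 =>
    have h := kap_rec A B j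
    rw [h1, h2] at h
    rw [Nat.factorial_succ] at i1
    rw [PK_eval, Nat.factorial_succ, Nat.factorial_succ]
    push_cast at i1 ⊢
    linear_combination ((j + 1) * j.factorial : ℚ) * h + 2 * (t + ρ) * i1
      - (j + 1) * (M - 1 - j) * i0

noncomputable def QK {n : ℕ} (j : Fin n → ℕ) : ℚ[X] :=
  ∏ i, PK ℚ (n - 1) (((n : ℚ) - 2 * i.val) / 2) (j i)

theorem QK_monic {n : ℕ} (j : Fin n → ℕ) : (QK j).Monic :=
  monic_prod_of_monic _ _ fun _ _ => PK_monic _ _ _

theorem QK_deg {n : ℕ} (j : Fin n → ℕ) : (QK j).natDegree = ∑ i, j i := by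
  rw [QK, natDegree_prod_of_monic _ _ fun _ _ => PK_monic _ _ _]
  exact sum_congr rfl fun i _ => PK_deg _ _ _

theorem tes_eval (n t : ℕ) : (((TesS (univ : Finset (Fin n)) fun _ => t).ncard : ℕ) : ℚ)
    = LL n fun p => ww p.1 * (QK p.1).eval (t : ℚ) := by
  refine mul_right_cancel₀ (b := (2 : ℚ) ^ n.choose 2) (by positivity) ?_
  rw [lidskii2, mul_comm, ← LL_mul]
  refine LL_congr fun p hp => ?_
  have h : ∀ i : Fin n, kap (t + oo n i) ((t : ℚ) + 1 - i.val) (p.1 i) * (p.1 i).factorial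
      = 2 ^ p.1 i * (PK ℚ (n - 1) (((n : ℚ) - 2 * i.val) / 2) (p.1 i)).eval (t : ℚ) := fun i => by
    have a1 : oo n i + i.val + 1 = n := by have := i.2; simp only [oo]; omega
    have a2 : ((oo n i + i.val + 1 : ℕ) : ℚ) = n := by rw [a1]
    have a3 : ((n - 1 : ℕ) : ℚ) = n - 1 := by
      rw [Nat.cast_sub (by omega)]; simp
    push_cast at a2
    refine kap_PK _ _ _ _ _ ?_ ?_ _
    · push_cast; linarith
    · rw [a3]; push_cast; linarith
  have h2 := prod_congr (rfl : (univ : Finset (Fin n)) = univ) fun i _ => h i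
  rw [prod_mul_distrib, prod_mul_distrib, prod_pow_eq_pow_sum, JJ_sum n p hp] at h2
  rw [QK, eval_prod, ww, mul_left_comm, ← h2]
  have : (∏ i, ((p.1 i).factorial : ℚ)) ≠ 0 := by positivity
  field_simp

theorem oo_three (n : ℕ) : 3 * ∑ i, i.val * oo n i ≤ n.choose 2 * n := by
  induction n with
  | zero => simp
  | succ n ih =>
    have h3 : ∑ i : Fin n, (i.val + 1) * oo n i = ∑ i : Fin n, i.val * oo n i + ∑ i, oo n i := by
      rw [← sum_add_distrib]; exact sum_congr rfl fun i _ => by ring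
    have h5 := sum_oo n
    have h6 := two_choose n
    simp only [Fin.sum_univ_succ, Fin.val_zero, zero_mul, zero_add, Fin.val_succ, oo_succ,
      choose_two_succ]
    nlinarith

theorem sq_sum_le (T : Multiset ℝ) (ρ a : ℝ) (h : ∀ r ∈ T, |r - ρ| ≤ a) :
    (T.map (· ^ 2)).sum ≤ T.card * a ^ 2 + 2 * ρ * T.sum - T.card * ρ ^ 2 := by
  induction T using Multiset.induction_on with
  | empty => simp
  | cons x T ih =>
    have h1 := ih fun r hr => h r (Multiset.mem_cons_of_mem hr)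
    have h2 : (x - ρ) ^ 2 ≤ a ^ 2 := by
      rw [← sq_abs]; gcongr; exact h x (Multiset.mem_cons_self _ _)
    simp only [Multiset.map_cons, Multiset.sum_cons, Multiset.card_cons]
    push_cast
    nlinarith

theorem QK_pos (n : ℕ) (p : (Fin n → ℕ) × ℕ) (hp : p ∈ JJ n) (k : ℕ) (hk : k ≤ n.choose 2)
    (hk2 : 100 * (n.choose 2 - k) ≤ n.choose 2) : 0 < (QK p.1).coeff k := by
  have hd := JJ_sum n p hp
  rcases hk.eq_or_lt with rfl | hlt
  · have := (QK_monic p.1).coeff_natDegree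
    rw [QK_deg, hd] at this
    rw [this]; exact one_pos
  have hn : 0 < n := by
    rcases Nat.eq_zero_or_pos n with rfl | h
    · simp at hlt
    · exact h
  choose T T1 T2 T3 T4 using fun i : Fin n => PK_dom (n - 1) (((n : ℝ) - 2 * i.val) / 2) (p.1 i)
  have hD := Dom.prod univ T _ fun i _ => T4 i
  have e : (QK p.1).map (Rat.castHom ℝ)
      = ∏ i, PK ℝ (n - 1) (((n : ℝ) - 2 * i.val) / 2) (p.1 i) := by
    rw [QK, Polynomial.map_prod]
    exact prod_congr rfl fun i _ => by rw [PK_map]; simp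
  have hc : (∑ i, T i).card = n.choose 2 := by
    rw [Multiset.card_sum, ← hd]; exact sum_congr rfl fun i _ => T1 i
  set d := n.choose 2 with hdd
  have hn' : (0 : ℝ) < n := by exact_mod_cast hn
  have hd' : (0 : ℝ) < d := by exact_mod_cast (show 0 < d by omega)
  have hm : 100 * ((d - k : ℕ) : ℝ) ≤ d := by exact_mod_cast hk2
  have hm0 : (0 : ℝ) ≤ (d - k : ℕ) := by positivity
  have hM : ((n - 1 : ℕ) : ℝ) / 2 ≤ n / 2 := by gcongr; omega
  have hρ : ∀ i : Fin n, |((n : ℝ) - 2 * i.val) / 2| ≤ n / 2 := fun i => by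
    have a2 : (i.val : ℝ) ≤ n := by exact_mod_cast i.2.le
    have a4 : (0 : ℝ) ≤ i.val := by positivity
    rw [abs_le]; constructor <;> linarith
  have hsum : ∑ i, (p.1 i : ℝ) = d := by exact_mod_cast hd
  have key := hD.coeff_pos n (47 / 300 * d * n) (d * n ^ 2 / 2) (d - k) hn'.le (by positivity)
    (fun x hx => ?_) ?_ ?_ (by nlinarith) ?_ k (by omega) (by omega)
  · rw [← e, coeff_map] at key
    simpa using key
  · obtain ⟨i, -, hi⟩ := Multiset.mem_sum.1 hx
    have a1 := abs_le.1 ((T2 i x hi).trans hM)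
    have a2 := abs_le.1 (hρ i)
    rw [abs_le]; constructor <;> linarith
  · rw [Multiset.sum_sum]
    simp only [T3]
    have a1 : ((∑ i, i.val * p.1 i + p.2 : ℕ) : ℝ) = (∑ i, i.val * oo n i : ℕ) := by
      rw [JJ_ht n p hp]
    have a2 : ((3 * ∑ i, i.val * oo n i : ℕ) : ℝ) ≤ (d * n : ℕ) := by exact_mod_cast oo_three n
    push_cast at a1 a2
    have a3 : ∑ i, (p.1 i : ℝ) * (((n : ℝ) - 2 * i.val) / 2)
        = n / 2 * d - ∑ i, (i.val : ℝ) * p.1 i := by
      rw [← hsum, mul_sum, ← sum_sub_distrib]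
      exact sum_congr rfl fun i _ => by ring
    have a4 : (0 : ℝ) ≤ p.2 := by positivity
    rw [a3]
    nlinarith
  · have ms : (∑ i, T i).map (· ^ 2) = ∑ i, (T i).map (· ^ 2) :=
      map_sum (Multiset.mapAddMonoidHom fun x : ℝ => x ^ 2) T univ
    rw [ms, Multiset.sum_sum, ← hsum, sum_mul, sum_div]
    refine sum_le_sum fun i _ => ?_
    have a1 := sq_sum_le (T i) _ _ fun r hr => (T2 i r hr).trans hM
    rw [T1, T3] at a1
    have a2 : (((n : ℝ) - 2 * i.val) / 2) ^ 2 ≤ (n / 2) ^ 2 := by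
      rw [← sq_abs]; gcongr; exact hρ i
    have a3 : (p.1 i : ℝ) * (((n : ℝ) - 2 * i.val) / 2) ^ 2 ≤ p.1 i * (n / 2) ^ 2 := by gcongr
    nlinarith
  · have : 14 * ((d - k : ℕ) : ℝ) * (d * n ^ 2 / 2) ≤ 14 * (d / 100) * (d * n ^ 2 / 2) := by
      gcongr; linarith
    have a1 : (0 : ℝ) ≤ d ^ 2 * n ^ 2 := by positivity
    nlinarith

theorem JJ_ne (n : ℕ) : ∃ p, p ∈ JJ n := by
  induction n with
  | zero => exact ⟨(0, 0), by simp [JJ]⟩
  | succ n ih =>
    obtain ⟨p, hp⟩ := ih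
    refine ⟨stp p 0, ?_⟩
    simp only [JJ, Multiset.mem_bind, Multiset.mem_map]
    exact ⟨p, hp, 0, mem_box.2 fun _ => Nat.zero_le _, rfl⟩

theorem LL_pos {n : ℕ} {φ : (Fin n → ℕ) × ℕ → ℚ} (h : ∀ p ∈ JJ n, 0 < φ p) : 0 < LL n φ := by
  obtain ⟨p, hp⟩ := JJ_ne n
  obtain ⟨s, hs⟩ := Multiset.exists_cons_of_mem hp
  rw [hs] at h
  rw [LL, hs, Multiset.map_cons, Multiset.sum_cons]
  refine add_pos_of_pos_of_nonneg (h p (Multiset.mem_cons_self _ _)) (Multiset.sum_nonneg ?_)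
  intro y hy
  obtain ⟨x, hx, rfl⟩ := Multiset.mem_map.1 hy
  exact (h x (Multiset.mem_cons_of_mem hx)).le

theorem tes_top100 (n : ℕ) : ∃ p : ℚ[X],
    (∀ t : ℕ, p.eval (t : ℚ) = (Set.ncard {M : Fin n → Fin n → ℕ | (∀ i j, j < i → M i j = 0) ∧
      ∀ k, (∑ j, (if k ≤ j then (M k j : ℤ) else 0)) - (∑ i, (if i < k then (M i k : ℤ) else 0))
        = (t : ℤ)} : ℕ)) ∧
    p.natDegree = n.choose 2 ∧
    ∀ i ≤ n.choose 2, 100 * (n.choose 2 - i) ≤ n.choose 2 → 0 < p.coeff i := by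
  have hc : ∀ i, (LL n fun p => C (ww p.1) * QK p.1).coeff i
      = LL n fun p => ww p.1 * (QK p.1).coeff i :=
    fun i => (LL_map (lcoeff ℚ i).toAddMonoidHom n _).trans (LL_congr fun p _ => coeff_C_mul _)
  have h3 : ∀ i ≤ n.choose 2, 100 * (n.choose 2 - i) ≤ n.choose 2 →
      0 < (LL n fun p => C (ww p.1) * QK p.1).coeff i := by
    intro i hi h
    rw [hc]
    exact LL_pos fun p hp => mul_pos (ww_pos _) (QK_pos n p hp i hi h)
  refine ⟨LL n fun p => C (ww p.1) * QK p.1, fun t => ?_, ?_, h3⟩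
  · have e : {M : Fin n → Fin n → ℕ | (∀ i j, j < i → M i j = 0) ∧
        ∀ k, (∑ j, (if k ≤ j then (M k j : ℤ) else 0)) - (∑ i, (if i < k then (M i k : ℤ) else 0))
        = (t : ℤ)} = TesS univ fun _ => t := by
      ext M
      simp only [TesS, Set.mem_ofPred_eq, mem_univ, true_and, forall_const]
      have h1 : (∀ i j : Fin n, j < i → M i j = 0) ↔ ∀ i j, M i j ≠ 0 → i ≤ j :=
        ⟨fun h i j hij => not_lt.1 fun hh => hij (h i j hh),
          fun h i j hij => by by_contra hh; exact absurd (h i j hh) (not_le.2 hij)⟩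
      rw [← h1]
      exact and_congr_right fun h => forall_congr' fun k => hook_iff M h k t
    rw [e, tes_eval]
    refine (LL_map (evalRingHom (t : ℚ)).toAddMonoidHom n _).trans (LL_congr fun p _ => ?_)
    exact eval_C_mul
  · refine le_antisymm (natDegree_le_iff_coeff_eq_zero.2 fun i hi => ?_)
      (le_natDegree_of_ne_zero (h3 _ le_rfl (by omega)).ne')
    rw [hc, LL_congr (ψ := fun _ => (0 : ℚ)) fun p hp => by
      rw [coeff_eq_zero_of_natDegree_lt (by rw [QK_deg, JJ_sum n p hp]; exact hi), mul_zero]]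
    simp [LL]

end Pool.Agent.Lib.MP_da4f77_co
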