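import Pool.Agent.Lib.MP_da4f77_co.TtMu

set_option autoImplicit false

namespace Pool.Agent.Lib.MP_da4f77_co

open Finset Polynomial

def stp {n : ℕ} (p : (Fin n → ℕ) × ℕ) (u : Fin n → ℕ) : (Fin (n + 1) → ℕ) × ℕ :=
  (Fin.cons (n + ∑ i, u i) (p.1 - u), p.2 + ∑ i, (i.val + 1) * u i)

def box {n : ℕ} (j : Fin n → ℕ) : Finset (Fin n → ℕ) := Fintype.piFinset fun i => range (j i + 1)

def JJ : (n : ℕ) → Multiset ((Fin n → ℕ) × ℕ)
  | 0 => {(0, 0)}
  | n + 1 => (JJ n).bind fun p => (box p.1).val.map (stp p)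

def LL {M : Type*} [AddCommMonoid M] (n : ℕ) (φ : (Fin n → ℕ) × ℕ → M) : M := ((JJ n).map φ).sum

theorem LL_zero {M : Type*} [AddCommMonoid M] (φ : (Fin 0 → ℕ) × ℕ → M) : LL 0 φ = φ (0, 0) := by
  simp [LL, JJ]

theorem LL_succ {M : Type*} [AddCommMonoid M] (n : ℕ) (φ : (Fin (n + 1) → ℕ) × ℕ → M) :
    LL (n + 1) φ = LL n fun p => ∑ u ∈ box p.1, φ (stp p u) := by
  simp only [LL, JJ, Multiset.map_bind, Multiset.sum_bind, Multiset.map_map]
  rfl

theorem LL_le {n : ℕ} {φ ψ : (Fin n → ℕ) × ℕ → ℚ} (h : ∀ p ∈ JJ n, φ p ≤ ψ p) : LL n φ ≤ LL n ψ :=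
  Multiset.sum_map_le_sum_map _ _ h

theorem LL_congr {M : Type*} [AddCommMonoid M] {n : ℕ} {φ ψ : (Fin n → ℕ) × ℕ → M}
    (h : ∀ p ∈ JJ n, φ p = ψ p) : LL n φ = LL n ψ := by
  rw [LL, LL, Multiset.map_congr rfl h]

theorem LL_mul (n : ℕ) (c : ℚ) (φ : (Fin n → ℕ) × ℕ → ℚ) :
    LL n (fun p => c * φ p) = c * LL n φ := by
  simp only [LL, Multiset.sum_map_mul_left]

theorem LL_sub (n : ℕ) (φ ψ : (Fin n → ℕ) × ℕ → ℚ) :
    LL n (fun p => φ p - ψ p) = LL n φ - LL n ψ := by
  simp only [LL, Multiset.sum_map_sub]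

theorem LL_sum {κ : Type*} (n : ℕ) (s : Finset κ) (φ : κ → (Fin n → ℕ) × ℕ → ℚ) :
    ∑ k ∈ s, LL n (φ k) = LL n fun p => ∑ k ∈ s, φ k p := by
  classical
  induction s using Finset.induction_on with
  | empty => simp [LL]
  | insert a s ha ih => simp only [sum_insert ha, ih]; simp only [LL, Multiset.sum_map_add]

theorem LL_map {M N : Type*} [AddCommMonoid M] [AddCommMonoid N] (f : M →+ N) (n : ℕ)
    (φ : (Fin n → ℕ) × ℕ → M) : f (LL n φ) = LL n fun p => f (φ p) := by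
  simp only [LL, map_multiset_sum, Multiset.map_map]
  rfl

theorem mem_box {n : ℕ} {j u : Fin n → ℕ} : u ∈ box j ↔ ∀ i, u i ≤ j i := by
  simp [box, Fintype.mem_piFinset]

theorem mem_JJ_succ {n : ℕ} {x : (Fin (n + 1) → ℕ) × ℕ} (hx : x ∈ JJ (n + 1)) :
    ∃ p ∈ JJ n, ∃ u : Fin n → ℕ, (∀ i, u i ≤ p.1 i) ∧ x = stp p u := by
  simp only [JJ, Multiset.mem_bind, Multiset.mem_map] at hx
  obtain ⟨p, hp, u, hu, rfl⟩ := hx
  exact ⟨p, hp, u, mem_box.1 hu, rfl⟩

theorem tes_shift (n : ℕ) (γ : Fin (n + 1) → ℕ) :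
    (TesS (univ.erase (0 : Fin (n + 1))) γ).ncard
      = (TesS (univ : Finset (Fin n)) fun i => γ i.succ).ncard := by
  let e : (Fin n → Fin n → ℕ) → Fin (n + 1) → Fin (n + 1) → ℕ :=
    fun M => Fin.cons 0 fun i => Fin.cons 0 (M i)
  have hinj : Function.Injective e := by
    intro M M' h
    funext i j
    simpa [e] using congrFun₂ h i.succ j.succ
  rw [← Set.ncard_image_of_injective _ hinj]
  congr 1
  ext M
  simp only [Set.mem_image, TesS, Set.mem_ofPred_eq, mem_erase, mem_univ, and_true, true_and,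
    forall_const]
  constructor
  · rintro ⟨h1, h2⟩
    have r0 : ∀ j, M 0 j = 0 := fun j => by by_contra h; exact (h1 0 j h).1 rfl
    have c0 : ∀ i, M i 0 = 0 := fun i => by by_contra h; exact (h1 i 0 h).2.1 rfl
    refine ⟨fun i j => M i.succ j.succ, ⟨fun i j h => ?_, fun k => ?_⟩, ?_⟩
    · exact Fin.succ_le_succ_iff.1 (h1 _ _ h).2.2
    · have := h2 k.succ (Fin.succ_ne_zero k)
      simpa [Fin.sum_univ_succ, r0, c0] using this
    · funext i j
      refine Fin.cases ?_ (fun i => ?_) i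
      · simp [e, r0]
      · refine Fin.cases ?_ (fun j => ?_) j
        · simp [e, c0]
        · simp [e]
  · rintro ⟨M', ⟨h1, h2⟩, rfl⟩
    refine ⟨fun i j => ?_, fun k => ?_⟩
    · refine Fin.cases ?_ (fun i => ?_) i
      · simp [e]
      · refine Fin.cases ?_ (fun j => ?_) j
        · simp [e]
        · intro h
          exact ⟨Fin.succ_ne_zero _, Fin.succ_ne_zero _,
            Fin.succ_le_succ_iff.2 (h1 i j (by simpa [e] using h))⟩
    · refine Fin.cases ?_ (fun k => ?_) k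
      · simp
      · intro _
        simpa [e, Fin.sum_univ_succ] using h2 k

theorem tes_succ (n : ℕ) (β : Fin (n + 1) → ℕ) :
    (TesS (univ : Finset (Fin (n + 1))) β).ncard
      = ∑ m ∈ piAntidiag univ (β 0),
        (TesS (univ : Finset (Fin n)) fun i => β i.succ + m i.succ).ncard := by
  have h := (tes_step (univ.erase (0 : Fin (n + 1))) 0
    (fun x hx => Fin.pos_iff_ne_zero.2 (ne_of_mem_erase hx)) (tes_rep _).1 β).2
  rw [insert_erase (mem_univ _)] at h
  rw [h, Lam, insert_erase (mem_univ _)]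
  exact sum_congr rfl fun m _ => tes_shift n (β + m)

theorem lidskii (n : ℕ) (β : Fin n → ℕ) :
    (((TesS (univ : Finset (Fin n)) β).ncard : ℕ) : ℚ)
      = LL n fun p => ∏ i, mu (β i + 1 - i.val) (p.1 i) := by
  induction n with
  | zero =>
    have : TesS (univ : Finset (Fin 0)) β = {0} := by
      ext M
      simp only [TesS, Set.mem_ofPred_eq, IsEmpty.forall_iff, and_self, Set.mem_singleton_iff,
        true_iff]
      exact Subsingleton.elim _ _
    rw [LL_zero, this]; simp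
  | succ n ih =>
    rw [tes_succ, LL_succ]
    push_cast
    simp only [ih]
    rw [LL_sum]
    refine LL_congr fun p _ => ?_
    have e1 : ∀ m : Fin (n + 1) → ℕ,
        ∏ i : Fin n, mu (((β i.succ + m i.succ : ℕ) : ℚ) + 1 - i.val) (p.1 i)
        = ∑ u ∈ box p.1, (∏ i : Fin n, mu (β i.succ + 1 - (i.succ).val) (p.1 i - u i))
          * ∏ i : Fin n, (((m i.succ + u i).choose (u i) : ℕ) : ℚ) := by
      intro m
      have : ∀ i : Fin n, mu (((β i.succ + m i.succ : ℕ) : ℚ) + 1 - i.val) (p.1 i)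
          = ∑ u ∈ range (p.1 i + 1), mu (β i.succ + 1 - (i.succ).val) (p.1 i - u)
            * ((m i.succ + u).choose u : ℕ) := fun i => by
        rw [← mu_add]; congr 1; simp only [Fin.val_succ]; push_cast; ring
      rw [prod_congr rfl fun i _ => this i, prod_univ_sum]
      exact sum_congr rfl fun u _ => prod_mul_distrib
    simp only [e1]
    rw [sum_comm]
    refine sum_congr rfl fun u _ => ?_
    rw [← mul_sum, Fin.prod_univ_succ, mul_comm]
    congr 1
    have h := conv (univ : Finset (Fin (n + 1))) n (by simp) (Fin.cons 0 u) (Fin.cons 0 u)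
      (fun _ _ => le_rfl) (β 0)
    simp only [Fin.prod_univ_succ, Fin.sum_univ_succ, Fin.cons_zero, Fin.cons_succ, add_zero,
      Nat.choose_zero_right, one_mul, zero_add] at h
    simp only [stp, Fin.cons_zero, Fin.val_zero, Nat.cast_zero, sub_zero]
    rw [mu_nat, add_comm n (∑ i, u i), ← h]
    push_cast
    rfl

end Pool.Agent.Lib.MP_da4f77_co
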