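import Pool.Agent.Lib.MP_da4f77_co.TtSup

set_option autoImplicit false

namespace Pool.Agent.Lib.MP_da4f77_co

open Finset Polynomial

def TT {n : ℕ} (j : Fin n → ℕ) : Finset (Σ _ : Fin n, ℕ) := univ.sigma fun i => range (j i)

def rr {n : ℕ} (x : Σ _ : Fin n, ℕ) : ℚ := (x.2 : ℚ) + 1 - x.1.val

noncomputable def PP {n : ℕ} (j : Fin n → ℕ) : ℚ[X] := C (ww j) * ∏ x ∈ TT j, (X + C (rr x))

theorem card_TT {n : ℕ} (j : Fin n → ℕ) : (TT j).card = ∑ i, j i := by simp [TT]

theorem PP_eval {n : ℕ} (j : Fin n → ℕ) (t : ℚ) :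
    (PP j).eval t = ∏ i, mu (t + 1 - i.val) (j i) := by
  simp only [PP, eval_mul, eval_C, eval_prod, eval_add, eval_X, TT, prod_sigma, mu, ww, rr,
    prod_div_distrib]
  rw [mul_comm, mul_one_div]
  congr 1
  exact prod_congr rfl fun i _ => prod_congr rfl fun x _ => by ring

theorem PP_high {n : ℕ} (j : Fin n → ℕ) (i : ℕ) (hi : ∑ i, j i < i) : (PP j).coeff i = 0 := by
  rw [PP, coeff_C_mul, coeff_eq_zero_of_natDegree_lt, mul_zero]
  refine lt_of_le_of_lt (natDegree_prod_le _ _) ?_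
  simp only [natDegree_X_add_C]
  rw [← card_TT] at hi
  simpa using hi

theorem PP_coeff {n : ℕ} (j : Fin n → ℕ) (d q : ℕ) (hd : ∑ i, j i = d) (hq : q ≤ d) :
    (PP j).coeff (d - q) = ww j * es rr (TT j) q := by
  rw [PP, coeff_C_mul, Finset.prod_X_add_C_coeff _ _ (by rw [card_TT]; omega), es_eq, card_TT, hd,
    show d - (d - q) = q by omega]

theorem good_term (n m q H : ℕ) (p : (Fin n → ℕ) × ℕ) (hp : p ∈ JJ n) (hH : H ≤ p.2) (h0 : 0 < H)
    (h1 : 22 * m * n ≤ H) (h2 : 22 * m * (n.choose 2 * n ^ 2) ≤ 5 * H ^ 2) (hq : q ≤ m) :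
    ((H : ℚ) / 2) ^ q / q.factorial ≤ es rr (TT p.1) q := by
  have h1' : (22 * m * n : ℚ) ≤ H := by exact_mod_cast h1
  have hmn : (0 : ℚ) ≤ m * n := by positivity
  refine es_mono rr (fun x => ((min (x.2 + 1) n : ℕ) : ℚ) - x.1.val) (TT p.1) n H m (by positivity)
    (by exact_mod_cast h0) (fun x _ => ?_) (fun x _ => ?_) ?_ h1' ?_ q hq
  · have : ((min (x.2 + 1) n : ℕ) : ℚ) ≤ (x.2 + 1 : ℕ) := by exact_mod_cast min_le_left _ _
    push_cast at this ⊢
    simp only [rr]; linarith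
  · have a1 : ((min (x.2 + 1) n : ℕ) : ℚ) ≤ n := by exact_mod_cast min_le_right _ _
    have a2 : (x.1.val : ℚ) ≤ n := by exact_mod_cast x.1.2.le
    have a3 : (0 : ℚ) ≤ (min (x.2 + 1) n : ℕ) := by positivity
    have a4 : (0 : ℚ) ≤ x.1.val := by positivity
    rw [abs_le]; constructor <;> linarith
  · have := JJ_root n p hp
    have a1 : (H : ℚ) ≤ p.2 := by exact_mod_cast hH
    rw [TT, sum_sigma]
    nlinarith
  · rw [card_TT, JJ_sum n p hp]; exact_mod_cast h2

theorem any_term (n : ℕ) (p : (Fin n → ℕ) × ℕ) (hp : p ∈ JJ n) (z : ℚ) (hz : 0 ≤ z) :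
    ww p.1 * ∏ x ∈ TT p.1, (1 + z * |rr x|) ≤ ww (oo n) * (1 + 2 * z * n) ^ n.choose 2 := by
  set g : ℕ → ℚ := fun x => (1 + z * n) / (x + 1) + z with hg
  have g0 : ∀ x, 0 < g x := fun x => by simp only [hg]; positivity
  have g1 : Antitone g := fun x y hxy => by
    have : (x : ℚ) ≤ y := by exact_mod_cast hxy
    simp only [hg]; gcongr
  have e : ∀ j : Fin n → ℕ, ww j = ∏ i, ∏ x ∈ range (j i), (1 / ((x : ℚ) + 1)) := fun j => by
    simp only [ww, prod_div_distrib, prod_const_one]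
    congr 1
    exact prod_congr rfl fun i _ => by rw [← prod_range_add_one_eq_factorial]; push_cast; rfl
  refine le_trans ?_ ((JJ_prod g g1 g0 n p hp).trans ?_)
  · rw [e, TT, prod_sigma, ← prod_mul_distrib]
    refine prod_le_prod (fun i _ => by positivity) fun i _ => ?_
    rw [← prod_mul_distrib]
    refine prod_le_prod (fun x _ => by positivity) fun x _ => ?_
    have a2 : (i.val : ℚ) ≤ n := by exact_mod_cast i.2.le
    have a3 : (0 : ℚ) ≤ x := by positivity
    have a4 : (0 : ℚ) ≤ i.val := by positivity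
    have a5 : |rr (⟨i, x⟩ : Σ _ : Fin n, ℕ)| ≤ n + (x + 1) := by
      simp only [rr]; rw [abs_le]; constructor <;> linarith
    calc _ ≤ 1 / ((x : ℚ) + 1) * (1 + z * (n + (x + 1))) := by gcongr
      _ = _ := by simp only [hg]; field_simp; ring
  · rw [e, ← sum_oo, ← prod_pow_eq_pow_sum, ← prod_mul_distrib]
    refine prod_le_prod (fun i _ => prod_nonneg fun x _ => (g0 x).le) fun i _ => ?_
    have : (1 + 2 * z * n) ^ oo n i = ∏ _x ∈ range (oo n i), (1 + 2 * z * n) := by simp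
    rw [this, ← prod_mul_distrib]
    refine prod_le_prod (fun x _ => (g0 x).le) fun x hx => ?_
    have a1 : (x : ℚ) + 1 ≤ n := by
      have := oo_lt n i
      have := mem_range.1 hx
      exact_mod_cast (show x + 1 ≤ n by omega)
    calc g x = 1 / ((x : ℚ) + 1) * (1 + z * (n + (x + 1))) := by simp only [hg]; field_simp; ring
      _ ≤ 1 / ((x : ℚ) + 1) * (1 + z * (n + n)) := by gcongr
      _ = _ := by ring

theorem numeric (n L K G d : ℕ) (hn : 1000 ≤ n) (hL : 500 * L ≤ n) (hL0 : 0 < L)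
    (hK : 50 * K ≤ n * n) (hd : 2 * d + n = n * n) (hG : d ≤ 6 * G + 5 * n) :
    2 * (51 / 50) ^ d * (((L : ℚ) + 1) / L) ^ (L * K) * ((257 / 256) ^ (n + L) * 256 ^ L) ^ n
      < 2 ^ G := by
  have key : 2 * (51 / 50) ^ d * (((L : ℝ) + 1) / L) ^ (L * K)
      * ((257 / 256) ^ (n + L) * 256 ^ L) ^ n < 2 ^ G := by
    have hL' : (0 : ℝ) < L := by exact_mod_cast hL0
    have l1 := Real.log_two_gt_d9
    have l2 := Real.log_two_lt_d9
    have e2 : (2 : ℝ) = Real.exp (Real.log 2) := (Real.exp_log (by norm_num)).symm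
    have a1 : (2 : ℝ) ≤ Real.exp 1 := by have := Real.add_one_le_exp 1; linarith
    have a2 : (51 / 50 : ℝ) ≤ Real.exp (1 / 50) := by
      have := Real.add_one_le_exp (1 / 50); linarith
    have a3 : ((L : ℝ) + 1) / L ≤ Real.exp (1 / L) := by
      have := Real.add_one_le_exp (1 / L)
      rw [add_div, div_self hL'.ne']; linarith
    have a4 : (257 / 256 : ℝ) ≤ Real.exp (1 / 256) := by
      have := Real.add_one_le_exp (1 / 256); linarith
    have a5 : (256 : ℝ) ≤ Real.exp (28 / 5) := by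
      have : (256 : ℝ) = Real.exp (8 * Real.log 2) := by
        rw [show (8 : ℝ) = (8 : ℕ) by norm_num, Real.exp_nat_mul, ← e2]; norm_num
      rw [this]; exact Real.exp_le_exp.2 (by linarith)
    have a6 : Real.exp (69 / 100) ≤ 2 := by
      rw [e2]; exact Real.exp_le_exp.2 (by linarith)
    calc _ ≤ Real.exp 1 * Real.exp (1 / 50) ^ d * Real.exp (1 / L) ^ (L * K)
          * (Real.exp (1 / 256) ^ (n + L) * Real.exp (28 / 5) ^ L) ^ n := by gcongr
      _ < Real.exp (69 / 100) ^ G := by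
          simp only [← Real.exp_nat_mul, ← Real.exp_add]
          refine Real.exp_lt_exp.2 ?_
          have b1 : (1000 : ℝ) ≤ n := by exact_mod_cast hn
          have b2 : 500 * (L : ℝ) ≤ n := by exact_mod_cast hL
          have b3 : 50 * (K : ℝ) ≤ n * n := by exact_mod_cast hK
          have b4 : 2 * (d : ℝ) + n = n * n := by exact_mod_cast hd
          have b5 : (d : ℝ) ≤ 6 * G + 5 * n := by exact_mod_cast hG
          have b6 : ((L * K : ℕ) : ℝ) * (1 / L) = K := by push_cast; field_simp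
          have b7 : (n : ℝ) * (500 * L) ≤ n * n := by gcongr
          have b8 : (n : ℝ) * 1000 ≤ n * n := by gcongr
          rw [b6]; push_cast
          nlinarith
      _ ≤ _ := by gcongr
  have : ((2 * (51 / 50) ^ d * (((L : ℚ) + 1) / L) ^ (L * K)
      * ((257 / 256) ^ (n + L) * 256 ^ L) ^ n : ℚ) : ℝ) < ((2 ^ G : ℚ) : ℝ) := by
    push_cast; exact key
  exact_mod_cast this

theorem coef_pos (n q : ℕ) (hq : 1000000000 * q ≤ n.choose 2) :
    0 < LL n fun p => ww p.1 * es rr (TT p.1) q := by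
  have hV := LL_V n
  have hw := ww_pos (oo n)
  rcases Nat.eq_zero_or_pos q with rfl | hq0
  · simp only [es_zero, mul_one]
    exact lt_of_lt_of_le (by positivity) hV
  have hd := two_choose n
  set d := n.choose 2 with hdd
  have hn : 44000 ≤ n := by by_contra h; nlinarith
  obtain ⟨L, hL1, hL2⟩ : ∃ L, 500 * L ≤ n ∧ n ≤ 506 * L := ⟨n / 500, by omega⟩
  obtain ⟨K, hK1, hK2⟩ : ∃ K, 50 * K ≤ n * n ∧ n * n ≤ 51 * K := by
    have : 44000 ≤ n * n := by nlinarith
    exact ⟨n * n / 50, by omega⟩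
  have hL0 : 0 < L := by omega
  have hK0 : 0 < K := by by_contra h; nlinarith
  set H := L * K with hH
  have hH0 : 0 < H := Nat.mul_pos hL0 hK0
  have hH1 : n * (n * n) ≤ 25806 * H := by
    calc _ ≤ 506 * L * (51 * K) := Nat.mul_le_mul hL2 hK2
      _ = _ := by rw [hH]; ring
  have hq1 : 2000000000 * q ≤ n * n := by omega
  have c1 : 200 * q * n ≤ H := by
    have : 2000000000 * q * n ≤ n * n * n := Nat.mul_le_mul_right _ hq1
    nlinarith
  have c2 : 22 * q * (d * n ^ 2) ≤ 5 * H ^ 2 := by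
    have a1 : (n * (n * n)) ^ 2 ≤ (25806 * H) ^ 2 := Nat.pow_le_pow_left hH1 2
    have a2 : 2000000000 * q * (2 * d) ≤ n * n * (n * n) := Nat.mul_le_mul hq1 (by omega)
    have a3 : 2000000000 * q * (2 * d) * n ^ 2 ≤ n * n * (n * n) * n ^ 2 :=
      Nat.mul_le_mul_right _ a2
    nlinarith
  set u : ℚ := ((H : ℚ) / 2) ^ q / q.factorial with hu
  have hH' : (0 : ℚ) < H := by exact_mod_cast hH0
  have u0 : 0 < u := by positivity
  have hn' : (0 : ℚ) < n := by exact_mod_cast (show 0 < n by omega)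
  have hL' : (0 : ℚ) < L := by exact_mod_cast hL0
  set z : ℚ := 1 / (100 * n) with hz
  have z0 : 0 < z := by positivity
  have hzu : 1 ≤ u * z ^ q := by
    have a1 : (q.factorial : ℚ) ≤ (q : ℚ) ^ q := by exact_mod_cast Nat.factorial_le_pow q
    have a2 : (q : ℚ) ≤ H / 2 * z := by
      have : (200 * q * n : ℚ) ≤ H := by exact_mod_cast c1
      rw [hz, mul_one_div, le_div_iff₀ (by positivity)]; linarith
    rw [hu, div_mul_eq_mul_div, ← mul_pow, le_div_iff₀ (by positivity), one_mul]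
    exact a1.trans (by gcongr)
  have e51 : 1 + 2 * z * n = 51 / 50 := by rw [hz]; field_simp; norm_num
  set B : ℚ := 2 * u * ww (oo n) * (51 / 50) ^ d * (((L : ℚ) + 1) / L) ^ H with hB
  have step : ∀ p ∈ JJ n, u * ww p.1 - B * ((L : ℚ) / (L + 1)) ^ p.2
      ≤ ww p.1 * es rr (TT p.1) q := by
    intro p hp
    have w0 := ww_pos p.1
    rcases le_or_gt H p.2 with h | h
    · have := good_term n q q H p hp h hH0 (by nlinarith) c2 le_rfl
      have a1 : 0 ≤ B * ((L : ℚ) / (L + 1)) ^ p.2 := by positivity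
      have a2 : ww p.1 * u ≤ ww p.1 * es rr (TT p.1) q := by gcongr
      linarith
    · have a1 := any_term n p hp z z0.le
      rw [e51] at a1
      have a2 := es_abs_le' rr (TT p.1) z z0.le q
      have a3 : 1 ≤ ∏ x ∈ TT p.1, (1 + z * |rr x|) := by
        have := es_abs_le' rr (TT p.1) z z0.le 0
        simpa [es_zero] using this
      set Q := ∏ x ∈ TT p.1, (1 + z * |rr x|)
      have a4 : |es rr (TT p.1) q| ≤ u * Q := by
        calc _ = 1 * |es rr (TT p.1) q| := (one_mul _).symm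
          _ ≤ u * z ^ q * |es rr (TT p.1) q| := by gcongr
          _ = u * (z ^ q * |es rr (TT p.1) q|) := by ring
          _ ≤ _ := by gcongr
      have a5 : 1 ≤ (((L : ℚ) + 1) / L) ^ H * ((L : ℚ) / (L + 1)) ^ p.2 := by
        have b1 : (((L : ℚ) + 1) / L) ^ p.2 ≤ (((L : ℚ) + 1) / L) ^ H :=
          pow_le_pow_right₀ (by rw [le_div_iff₀ hL']; linarith) h.le
        have b2 : (((L : ℚ) + 1) / L) ^ p.2 * ((L : ℚ) / (L + 1)) ^ p.2 = 1 := by
          rw [← mul_pow]
          have : ((L : ℚ) + 1) / L * (L / (L + 1)) = 1 := by field_simp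
          rw [this, one_pow]
        exact b2.ge.trans (mul_le_mul_of_nonneg_right b1 (by positivity))
      have a6 : 2 * u * (ww p.1 * Q) ≤ B * ((L : ℚ) / (L + 1)) ^ p.2 := by
        calc _ ≤ 2 * u * (ww (oo n) * (51 / 50) ^ d) * 1 := by rw [mul_one]; gcongr
          _ ≤ 2 * u * (ww (oo n) * (51 / 50) ^ d)
            * ((((L : ℚ) + 1) / L) ^ H * ((L : ℚ) / (L + 1)) ^ p.2) := by gcongr
          _ = _ := by rw [hB]; ring
      have a7 : ww p.1 * -(u * Q) ≤ ww p.1 * es rr (TT p.1) q :=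
        mul_le_mul_of_nonneg_left (abs_le.1 a4).1 w0.le
      have a8 : u * ww p.1 * 1 ≤ u * ww p.1 * Q := by gcongr
      nlinarith
  refine lt_of_lt_of_le ?_ (LL_le step)
  rw [LL_sub, LL_mul, LL_mul, sub_pos]
  have hZ := LL_Z L n hL0 n le_rfl
  have hN := numeric n L K _ d (by omega) hL1 hL0 hK1 hd (sum_div_six n)
  calc _ ≤ B * ((257 / 256) ^ (n + L) * 256 ^ L) ^ n := by gcongr
    _ = u * ww (oo n) * (2 * (51 / 50) ^ d * (((L : ℚ) + 1) / L) ^ (L * K)
      * ((257 / 256) ^ (n + L) * 256 ^ L) ^ n) := by rw [hB]; ring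
    _ < u * ww (oo n) * 2 ^ (∑ m ∈ range n, m / 6) := by gcongr
    _ = u * (2 ^ (∑ m ∈ range n, m / 6) * ww (oo n)) := by ring
    _ ≤ _ := by gcongr

theorem tes_top (n : ℕ) : ∃ p : ℚ[X],
    (∀ t : ℕ, p.eval (t : ℚ) = (Set.ncard {M : Fin n → Fin n → ℕ | (∀ i j, j < i → M i j = 0) ∧
      ∀ k, (∑ j, (if k ≤ j then (M k j : ℤ) else 0)) - (∑ i, (if i < k then (M i k : ℤ) else 0))
        = (t : ℤ)} : ℕ)) ∧
    p.natDegree = n.choose 2 ∧
    ∀ i ≤ n.choose 2, 1000000000 * (n.choose 2 - i) ≤ n.choose 2 → 0 < p.coeff i := by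
  have hc : ∀ i, (LL n fun p => PP p.1).coeff i = LL n fun p => (PP p.1).coeff i :=
    fun i => LL_map (lcoeff ℚ i).toAddMonoidHom n _
  have h3 : ∀ i ≤ n.choose 2, 1000000000 * (n.choose 2 - i) ≤ n.choose 2 →
      0 < (LL n fun p => PP p.1).coeff i := by
    intro i hi h
    have := coef_pos n _ h
    rw [hc, LL_congr (ψ := fun p => ww p.1 * es rr (TT p.1) (n.choose 2 - i)) fun p hp => ?_]
    · exact this
    · rw [← PP_coeff p.1 _ _ (JJ_sum n p hp) (Nat.sub_le _ _), Nat.sub_sub_self hi]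
  refine ⟨LL n fun p => PP p.1, fun t => ?_, ?_, h3⟩
  · have e : {M : Fin n → Fin n → ℕ | (∀ i j, j < i → M i j = 0) ∧
        ∀ k, (∑ j, (if k ≤ j then (M k j : ℤ) else 0)) - (∑ i, (if i < k then (M i k : ℤ) else 0))
        = (t : ℤ)} = TesS univ fun _ => t := by
      ext M
      simp only [TesS, Set.mem_ofPred_eq, mem_univ, true_and, forall_const]
      have h1 : (∀ i j : Fin n, j < i → M i j = 0) ↔ ∀ i j, M i j ≠ 0 → i ≤ j :=
        ⟨fun h i j hij => not_lt.1 fun hh => hij (h i j hh),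
          fun h i j hij => by by_contra hh; exact absurd (h i j hh) (not_le.2 hij)⟩
      rw [← h1]
      exact and_congr_right fun h => forall_congr' fun k => hook_iff M h k t
    rw [e, lidskii]
    refine (LL_map (evalRingHom (t : ℚ)).toAddMonoidHom n _).trans (LL_congr fun p _ => ?_)
    exact PP_eval p.1 t
  · refine le_antisymm (natDegree_le_iff_coeff_eq_zero.2 fun i hi => ?_)
      (le_natDegree_of_ne_zero (h3 _ le_rfl (by omega)).ne')
    rw [hc, LL_congr (ψ := fun _ => (0 : ℚ)) fun p hp => PP_high _ _ (by rw [JJ_sum n p hp]; exact hi)]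
    simp [LL]

end Pool.Agent.Lib.MP_da4f77_co
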