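import Pool.Agent.Lib.MP_da4f77_co.Main

set_option autoImplicit false

namespace Pool.Agent.Lib.MP_da4f77_co

open Finset Polynomial

noncomputable def mu (y : ℚ) (j : ℕ) : ℚ := (∏ x ∈ range j, (y + x)) / j.factorial

theorem mu_zero (y : ℚ) : mu y 0 = 1 := by simp [mu]

theorem mu_pascal (y : ℚ) (j : ℕ) : mu (y + 1) (j + 1) = mu (y + 1) j + mu y (j + 1) := by
  have h1 : ∏ x ∈ range (j + 1), (y + x) = (∏ x ∈ range j, (y + 1 + x)) * y := by
    rw [prod_range_succ']
    congr 1
    · exact prod_congr rfl fun x _ => by push_cast; ring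
    · simp
  simp only [mu]
  rw [h1, prod_range_succ, Nat.factorial_succ]
  have : (j.factorial : ℚ) ≠ 0 := by positivity
  push_cast
  field_simp
  ring

theorem mu_series (y : ℚ) :
    PowerSeries.mk (mu (y + 1)) = PowerSeries.mk (mu y) * PowerSeries.mk 1 := by
  have h : PowerSeries.mk (mu (y + 1)) * (1 - PowerSeries.X) = PowerSeries.mk (mu y) := by
    ext j
    rw [mul_sub, mul_one, map_sub]
    cases j with
    | zero => simp [mu_zero]
    | succ j => rw [PowerSeries.coeff_succ_mul_X]; simp [mu_pascal]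
  rw [← h, mul_assoc, mul_comm (1 - PowerSeries.X), PowerSeries.mk_one_mul_one_sub_eq_one, mul_one]

theorem mu_add (y : ℚ) (m j : ℕ) :
    mu (y + (m + 1)) j = ∑ u ∈ range (j + 1), mu y (j - u) * ((m + u).choose u : ℕ) := by
  have h : PowerSeries.mk (mu (y + (m + 1)))
      = (PowerSeries.mk 1) ^ (m + 1) * PowerSeries.mk (mu y) := by
    induction m with
    | zero => simp [mu_series, mul_comm]
    | succ m ih =>
      have : y + (((m + 1 : ℕ) : ℚ) + 1) = y + (m + 1) + 1 := by push_cast; ring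
      rw [this, mu_series, ih]; ring
  have h2 := congrArg (PowerSeries.coeff j) h
  rw [PowerSeries.coeff_mk, PowerSeries.mk_one_pow_eq_mk_choose_add, PowerSeries.coeff_mul,
    Finset.Nat.sum_antidiagonal_eq_sum_range_succ_mk] at h2
  rw [h2]
  refine sum_congr rfl fun u _ => ?_
  simp only [PowerSeries.coeff_mk]
  rw [mul_comm, Nat.choose_symm_add]

theorem mu_nat (a j : ℕ) : mu (a + 1) j = ((a + j).choose j : ℕ) := by
  induction j with
  | zero => simp [mu_zero]
  | succ j ih =>
    have h := Nat.add_one_mul_choose_eq (a + j) j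
    have h' : ((a : ℚ) + j + 1) * ((a + j).choose j : ℕ) = ((a + j + 1).choose (j + 1) : ℕ) * (j + 1) := by
      exact_mod_cast h
    have e : mu (a + 1) (j + 1) = mu (a + 1) j * (a + j + 1) / (j + 1) := by
      simp only [mu]
      rw [prod_range_succ, Nat.factorial_succ]
      have : (j.factorial : ℚ) ≠ 0 := by positivity
      push_cast
      field_simp
      ring
    rw [e, ih, ← add_assoc, div_eq_iff (by positivity), ← h']
    ring

section
variable {ι : Type*} [DecidableEq ι]

theorem es_mono (r r' : ι → ℚ) (T : Finset ι) (R W : ℚ) (m : ℕ) (hR : 0 ≤ R) (hW : 0 < W)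
    (hr : ∀ x ∈ T, r' x ≤ r x) (h : ∀ x ∈ T, |r' x| ≤ R) (hs : W + m * R ≤ ∑ x ∈ T, r' x)
    (h1 : 22 * m * R ≤ W) (h2 : 22 * m * (T.card * R ^ 2) ≤ 5 * W ^ 2) (q : ℕ) (hq : q ≤ m) :
    (W / 2) ^ q / q.factorial ≤ es r T q := by
  have e : (∏ x ∈ T, (1 + C (r x) * X) : ℚ[X])
      = ∑ S ∈ T.powerset, (C (∏ x ∈ S, (r x - r' x)) * X ^ S.card)
        * ∏ x ∈ T \ S, (1 + C (r' x) * X) := by
    have : ∀ x ∈ T, (1 + C (r x) * X : ℚ[X]) = C (r x - r' x) * X + (1 + C (r' x) * X) :=
      fun x _ => by rw [map_sub]; ring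
    rw [prod_congr rfl this, prod_add]
    refine sum_congr rfl fun S _ => ?_
    rw [prod_mul_distrib, prod_const, map_prod]
  have hm0 : (0 : ℚ) ≤ m := by positivity
  have key : ∀ S ∈ T.powerset, S.card ≤ m → ∀ k ≤ m,
      (W / 2) ^ k / k.factorial ≤ es r' (T \ S) k := by
    intro S hS hc k hk
    have hS' := mem_powerset.1 hS
    refine es_ge r' (T \ S) R W m hR hW (fun x hx => h x (mem_sdiff.1 hx).1) ?_ h1 ?_ k hk
    · have a1 := sum_sdiff (f := r') hS'
      have a2 : ∑ x ∈ S, r' x ≤ S.card • R :=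
        sum_le_card_nsmul _ _ _ fun x hx => (le_abs_self _).trans (h x (hS' hx))
      rw [nsmul_eq_mul] at a2
      have a3 : (S.card : ℚ) * R ≤ m * R := by gcongr
      linarith
    · refine le_trans ?_ h2
      have : ((T \ S).card : ℚ) ≤ T.card := by exact_mod_cast card_le_card sdiff_subset
      gcongr
  rw [es, e, finsetSum_coeff]
  refine le_trans ?_ (single_le_sum (f := fun S => ((C (∏ x ∈ S, (r x - r' x)) * X ^ S.card)
        * ∏ x ∈ T \ S, (1 + C (r' x) * X) : ℚ[X]).coeff q) (fun S hS => ?_) (empty_mem_powerset T))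
  · have := key ∅ (empty_mem_powerset T) (by simp) q hq
    simpa [es] using this
  · rw [mul_assoc, coeff_C_mul, coeff_X_pow_mul']
    refine mul_nonneg (prod_nonneg fun x hx => sub_nonneg.2 (hr x (mem_powerset.1 hS hx))) ?_
    split_ifs with hc
    · exact le_trans (by positivity) (key S hS (hc.trans hq) (q - S.card) (by omega))
    · exact le_rfl

omit [DecidableEq ι] in
theorem es_abs_le' (r : ι → ℚ) (T : Finset ι) (z : ℚ) (hz : 0 ≤ z) (q : ℕ) :
    z ^ q * |es r T q| ≤ ∏ x ∈ T, (1 + z * |r x|) := by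
  rw [es_eq, prod_one_add]
  refine le_trans (mul_le_mul_of_nonneg_left (abs_sum_le_sum_abs _ _) (by positivity)) ?_
  rw [mul_sum]
  refine le_trans (le_of_eq (sum_congr rfl fun t ht => ?_))
    (sum_le_sum_of_subset_of_nonneg (s := T.powersetCard q)
      (fun t ht => mem_powerset.2 (mem_powersetCard.1 ht).1)
      (fun t _ _ => prod_nonneg fun x _ => by positivity))
  rw [prod_mul_distrib, prod_const, (mem_powersetCard.1 ht).2, abs_prod]

end

theorem tangent (g : ℕ → ℚ) (hg : Antitone g) (h0 : ∀ x, 0 ≤ g x) (j o : ℕ) :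
    (∏ x ∈ range j, g x) * g o ^ o ≤ (∏ x ∈ range o, g x) * g o ^ j := by
  rcases le_total j o with h | h
  · obtain ⟨k, rfl⟩ := Nat.exists_eq_add_of_le h
    rw [prod_range_add, pow_add, mul_assoc, mul_comm (g (j + k) ^ j)]
    refine mul_le_mul_of_nonneg_left (mul_le_mul_of_nonneg_right ?_ (pow_nonneg (h0 _) _))
      (prod_nonneg fun x _ => h0 x)
    calc g (j + k) ^ k = ∏ _x ∈ range k, g (j + k) := by simp
      _ ≤ _ := prod_le_prod (fun _ _ => h0 _) fun x hx => hg (by have := mem_range.1 hx; omega)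
  · obtain ⟨k, rfl⟩ := Nat.exists_eq_add_of_le h
    rw [prod_range_add, pow_add, mul_assoc, mul_comm (g o ^ o)]
    refine mul_le_mul_of_nonneg_left (mul_le_mul_of_nonneg_right ?_ (pow_nonneg (h0 _) _))
      (prod_nonneg fun x _ => h0 x)
    calc _ ≤ ∏ _x ∈ range k, g o := prod_le_prod (fun _ _ => h0 _) fun x _ => hg (by omega)
      _ = _ := by simp

theorem tangent_sum (N j o : ℕ) (ho : o ≤ N) :
    (o : ℚ) * (o + 1) / 2 + (j - o) * o ≤ ∑ x ∈ range j, ((min (x + 1) N : ℕ) : ℚ) := by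
  have h : ∀ j : ℕ, j ≤ N → ∑ x ∈ range j, ((min (x + 1) N : ℕ) : ℚ) = j * (j + 1) / 2 := by
    intro j hj
    induction j with
    | zero => simp
    | succ j ih => rw [sum_range_succ, ih (by omega), min_eq_left hj]; push_cast; ring
  rcases le_total j o with hj | hj
  · rw [h j (hj.trans ho)]
    obtain ⟨k, rfl⟩ := Nat.exists_eq_add_of_le hj
    have : (k : ℚ) ≤ k * k + k := by
      have : (0 : ℚ) ≤ k * k := by positivity
      linarith
    have h3 : (0 : ℚ) ≤ k * (k - 1) := by
      rcases Nat.eq_zero_or_pos k with rfl | hk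
      · simp
      · have : (1 : ℚ) ≤ k := by exact_mod_cast hk
        exact mul_nonneg (by positivity) (by linarith)
    push_cast
    nlinarith
  · obtain ⟨k, rfl⟩ := Nat.exists_eq_add_of_le hj
    rw [sum_range_add, h o ho]
    have : ∑ _x ∈ range k, (o : ℚ) ≤ ∑ x ∈ range k, ((min (o + x + 1) N : ℕ) : ℚ) :=
      sum_le_sum fun x _ => by exact_mod_cast le_min (by omega) ho
    simp only [sum_const, card_range, nsmul_eq_mul] at this
    push_cast at this ⊢
    nlinarith

end Pool.Agent.Lib.MP_da4f77_co
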