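import Pool.Agent.Lib.MP_da4f77_co.TtLid

set_option autoImplicit false

namespace Pool.Agent.Lib.MP_da4f77_co

open Finset Polynomial

def oo (n : ℕ) (i : Fin n) : ℕ := n - 1 - i.val

theorem oo_zero (n : ℕ) : oo (n + 1) 0 = n := by simp [oo]

theorem oo_succ (n : ℕ) (i : Fin n) : oo (n + 1) i.succ = oo n i := by
  simp only [oo, Fin.val_succ]; omega

theorem oo_lt (n : ℕ) (i : Fin n) : oo n i < n := by
  have := i.2; simp only [oo]; omega

theorem choose_two_succ (n : ℕ) : (n + 1).choose 2 = n + n.choose 2 := by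
  rw [Nat.choose_succ_succ' n 1]; simp

theorem sum_oo (n : ℕ) : ∑ i, oo n i = n.choose 2 := by
  induction n with
  | zero => simp
  | succ n ih => rw [Fin.sum_univ_succ, oo_zero, choose_two_succ]; simp only [oo_succ, ih]

theorem JJ_sum (n : ℕ) : ∀ p ∈ JJ n, ∑ i, p.1 i = n.choose 2 := by
  induction n with
  | zero => intro p _; simp
  | succ n ih =>
    intro x hx
    obtain ⟨p, hp, u, hu, rfl⟩ := mem_JJ_succ hx
    have h1 := ih p hp
    have h2 : ∑ i, (p.1 i - u i) + ∑ i, u i = ∑ i, p.1 i := by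
      rw [← sum_add_distrib]; exact sum_congr rfl fun i _ => Nat.sub_add_cancel (hu i)
    simp only [stp, Fin.sum_univ_succ, Fin.cons_zero, Fin.cons_succ, Pi.sub_apply, choose_two_succ]
    omega

theorem JJ_ht (n : ℕ) : ∀ p ∈ JJ n, ∑ i, i.val * p.1 i + p.2 = ∑ i, i.val * oo n i := by
  induction n with
  | zero => intro p hp; simp only [JJ, Multiset.mem_singleton] at hp; simp [hp]
  | succ n ih =>
    intro x hx
    obtain ⟨p, hp, u, hu, rfl⟩ := mem_JJ_succ hx
    have h1 := ih p hp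
    have h2 : ∑ i : Fin n, (i.val + 1) * (p.1 i - u i) + ∑ i : Fin n, (i.val + 1) * u i
        = ∑ i : Fin n, i.val * p.1 i + ∑ i, p.1 i := by
      rw [← sum_add_distrib, ← sum_add_distrib]
      exact sum_congr rfl fun i _ => by rw [← mul_add, Nat.sub_add_cancel (hu i)]; ring
    have h3 : ∑ i : Fin n, (i.val + 1) * oo n i = ∑ i : Fin n, i.val * oo n i + ∑ i, oo n i := by
      rw [← sum_add_distrib]; exact sum_congr rfl fun i _ => by ring
    have h4 := JJ_sum n p hp
    have h5 := sum_oo n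
    simp only [stp, Fin.sum_univ_succ, Fin.cons_succ, Pi.sub_apply, Fin.val_zero,
      zero_mul, zero_add, Fin.val_succ, oo_succ]
    omega

theorem JJ_pow (g : ℕ → ℚ) (hg : Antitone g) (h0 : ∀ x, 0 ≤ g x) (n : ℕ) :
    ∀ p ∈ JJ n, ∏ i, g (oo n i) ^ p.1 i ≤ ∏ i, g (oo n i) ^ oo n i := by
  induction n with
  | zero => intro p _; simp
  | succ n ih =>
    intro x hx
    obtain ⟨p, hp, u, hu, rfl⟩ := mem_JJ_succ hx
    simp only [stp, Fin.prod_univ_succ, Fin.cons_zero, Fin.cons_succ, Pi.sub_apply, oo_succ, oo_zero]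
    rw [pow_add, mul_assoc]
    refine mul_le_mul_of_nonneg_left (le_trans ?_ (ih p hp)) (pow_nonneg (h0 _) _)
    rw [← prod_pow_eq_pow_sum, ← prod_mul_distrib]
    refine prod_le_prod (fun i _ => mul_nonneg (pow_nonneg (h0 _) _) (pow_nonneg (h0 _) _))
      fun i _ => ?_
    calc g n ^ u i * g (oo n i) ^ (p.1 i - u i)
        ≤ g (oo n i) ^ u i * g (oo n i) ^ (p.1 i - u i) :=
          mul_le_mul_of_nonneg_right (pow_le_pow_left₀ (h0 _) (hg (oo_lt n i).le) _)
            (pow_nonneg (h0 _) _)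
      _ = _ := by rw [← pow_add, Nat.add_sub_cancel' (hu i)]

theorem JJ_prod (g : ℕ → ℚ) (hg : Antitone g) (h0 : ∀ x, 0 < g x) (n : ℕ) :
    ∀ p ∈ JJ n, ∏ i, ∏ x ∈ range (p.1 i), g x ≤ ∏ i, ∏ x ∈ range (oo n i), g x := by
  intro p hp
  have h1 : ∏ i, ((∏ x ∈ range (p.1 i), g x) * g (oo n i) ^ oo n i)
      ≤ ∏ i, ((∏ x ∈ range (oo n i), g x) * g (oo n i) ^ p.1 i) :=
    prod_le_prod (fun i _ => mul_nonneg (prod_nonneg fun x _ => (h0 x).le)
      (pow_nonneg (h0 _).le _)) fun i _ => tangent g hg (fun x => (h0 x).le) _ _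
  rw [prod_mul_distrib, prod_mul_distrib] at h1
  have h2 := JJ_pow g hg (fun x => (h0 x).le) n p hp
  have h3 : 0 < ∏ i, g (oo n i) ^ oo n i := prod_pos fun i _ => pow_pos (h0 _) _
  refine le_of_mul_le_mul_right (h1.trans ?_) h3
  exact mul_le_mul_of_nonneg_left h2 (prod_nonneg fun i _ => prod_nonneg fun x _ => (h0 x).le)

theorem oo_base (n : ℕ) : 2 * ∑ i, i.val * oo n i ≤ ∑ i, oo n i * (oo n i + 1) := by
  induction n with
  | zero => simp
  | succ n ih =>
    have h3 : ∑ i : Fin n, (i.val + 1) * oo n i = ∑ i : Fin n, i.val * oo n i + ∑ i, oo n i := by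
      rw [← sum_add_distrib]; exact sum_congr rfl fun i _ => by ring
    have h5 := sum_oo n
    have h6 := two_choose n
    simp only [Fin.sum_univ_succ, Fin.val_zero, zero_mul, zero_add, Fin.val_succ, oo_succ, oo_zero]
    nlinarith

theorem JJ_root (n : ℕ) : ∀ p ∈ JJ n,
    (2 * p.2 : ℚ) ≤ ∑ i, ∑ x ∈ range (p.1 i), (((min (x + 1) n : ℕ) : ℚ) - i.val) := by
  intro p hp
  have h1 : ((∑ i, p.1 i : ℕ) : ℚ) = (∑ i, oo n i : ℕ) := by rw [JJ_sum n p hp, sum_oo]
  have h2 : ((∑ i, i.val * p.1 i + p.2 : ℕ) : ℚ) = (∑ i, i.val * oo n i : ℕ) := by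
    rw [JJ_ht n p hp]
  have h3 : ((2 * ∑ i, i.val * oo n i : ℕ) : ℚ) ≤ (∑ i, oo n i * (oo n i + 1) : ℕ) := by
    exact_mod_cast oo_base n
  push_cast at h1 h2 h3
  have h4 : ∀ i : Fin n, (oo n i : ℚ) * (oo n i + 1) / 2 + (((n : ℚ) - 1) * p.1 i
      - ((n : ℚ) - 1) * oo n i) - 2 * (i.val * p.1 i) + i.val * oo n i
      ≤ ∑ x ∈ range (p.1 i), (((min (x + 1) n : ℕ) : ℚ) - i.val) := fun i => by
    have a1 := tangent_sum n (p.1 i) (oo n i) (oo_lt n i).le
    have a2 : (oo n i : ℚ) = n - 1 - i.val := by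
      have : oo n i + i.val + 1 = n := by have := i.2; simp only [oo]; omega
      have : ((oo n i + i.val + 1 : ℕ) : ℚ) = n := by rw [this]
      push_cast at this; linarith
    rw [sum_sub_distrib, sum_const, card_range, nsmul_eq_mul]
    have a3 : ((p.1 i : ℚ) - oo n i) * oo n i = ((p.1 i : ℚ) - oo n i) * (n - 1 - i.val) := by
      rw [← a2]
    nlinarith
  refine le_trans ?_ (sum_le_sum fun i _ => h4 i)
  simp only [sum_add_distrib, sum_sub_distrib, ← mul_sum, ← sum_div]
  rw [h1]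
  linarith

theorem geom_le (L h K : ℕ) (hL : 0 < L) :
    ∑ u ∈ range K, (((L : ℚ) / (L + 1)) ^ (h + 1)) ^ u ≤ (L + 1 + h) / (h + 1) := by
  set ρ : ℚ := ((L : ℚ) / (L + 1)) ^ (h + 1) with hρ
  have hL' : (0 : ℚ) < L := by exact_mod_cast hL
  have h1 : 1 + ((h + 1 : ℕ) : ℚ) * (1 / L) ≤ (1 + 1 / L) ^ (h + 1) :=
    one_add_mul_le_pow (by have : (0 : ℚ) ≤ 1 / L := by positivity
                           linarith) _
  have h2 : ρ * (1 + 1 / L) ^ (h + 1) = 1 := by
    rw [hρ, ← mul_pow]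
    have : (L : ℚ) / (L + 1) * (1 + 1 / L) = 1 := by field_simp
    rw [this, one_pow]
  have h0 : 0 < ρ := by positivity
  have h3 : ρ * (L + 1 + h) ≤ L := by
    have : ρ * (1 + ((h + 1 : ℕ) : ℚ) * (1 / L)) ≤ 1 :=
      (mul_le_mul_of_nonneg_left h1 h0.le).trans h2.le
    have e : (1 + ((h + 1 : ℕ) : ℚ) * (1 / L)) = (L + 1 + h) / L := by push_cast; field_simp; ring
    rw [e, ← mul_div_assoc, div_le_one hL'] at this
    exact this
  have h4 := geom_sum_mul ρ K
  have h5 : 0 ≤ ρ ^ K := by positivity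
  have h6 : 0 ≤ ∑ u ∈ range K, ρ ^ u := sum_nonneg fun _ _ => by positivity
  rw [le_div_iff₀ (by positivity)]
  have h7 : (0 : ℚ) < L + 1 + h := by positivity
  nlinarith

theorem choose_le_pow (n L : ℕ) :
    (((L + n).choose n : ℕ) : ℚ) ≤ (257 / 256) ^ (n + L) * 256 ^ L := by
  have h := add_pow (1 : ℚ) (1 / 256) (L + n)
  have h2 : (1 : ℚ) ^ n * (1 / 256) ^ (L + n - n) * ((L + n).choose n : ℕ)
      ≤ ∑ m ∈ range (L + n + 1), (1 : ℚ) ^ m * (1 / 256) ^ (L + n - m) * ((L + n).choose m : ℕ) :=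
    single_le_sum (f := fun m => (1 : ℚ) ^ m * (1 / 256) ^ (L + n - m) * ((L + n).choose m : ℕ))
      (fun _ _ => by positivity) (mem_range.2 (by omega))
  rw [← h, Nat.add_sub_cancel, one_pow, one_mul] at h2
  have h3 : (256 : ℚ) ^ L * (1 / 256) ^ L = 1 := by rw [← mul_pow]; norm_num
  calc _ = (256 : ℚ) ^ L * ((1 / 256) ^ L * ((L + n).choose n : ℕ)) := by
        rw [← mul_assoc, h3, one_mul]
    _ ≤ 256 ^ L * (1 + 1 / 256) ^ (L + n) := by gcongr
    _ = _ := by rw [add_comm L n, mul_comm]; norm_num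

theorem LL_Z (L N : ℕ) (hL : 0 < L) (n : ℕ) (hn : n ≤ N) :
    LL n (fun p => ((L : ℚ) / (L + 1)) ^ p.2) ≤ ((257 / 256) ^ (N + L) * 256 ^ L) ^ n := by
  induction n with
  | zero => rw [LL_zero]; simp
  | succ n ih =>
    rw [LL_succ, pow_succ, mul_comm]
    refine le_trans (LL_le (ψ := fun p => (257 / 256) ^ (N + L) * 256 ^ L
      * ((L : ℚ) / (L + 1)) ^ p.2) fun p _ => ?_) ?_
    · simp only [stp, pow_add, ← mul_sum]
      rw [mul_comm]
      refine mul_le_mul_of_nonneg_right ?_ (by positivity)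
      simp only [← prod_pow_eq_pow_sum, pow_mul]
      rw [box, ← prod_univ_sum (fun i : Fin n => range (p.1 i + 1))
        (fun i u => (((L : ℚ) / (L + 1)) ^ (i.val + 1)) ^ u)]
      refine le_trans (prod_le_prod (fun i _ => sum_nonneg fun _ _ => by positivity)
        fun i _ => geom_le L i.val _ hL) ?_
      have e : ∏ i : Fin n, ((L : ℚ) + 1 + i.val) / (i.val + 1) = mu (L + 1) n := by
        rw [mu, prod_div_distrib, Fin.prod_univ_eq_prod_range (fun i => (L : ℚ) + 1 + i),
          Fin.prod_univ_eq_prod_range (fun i => (i : ℚ) + 1), ← prod_range_add_one_eq_factorial]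
        push_cast; rfl
      rw [e, mu_nat, ← pow_add]
      refine (choose_le_pow n L).trans ?_
      gcongr
      · norm_num
      · omega
    · rw [LL_mul]
      exact mul_le_mul_of_nonneg_left (ih (by omega)) (by positivity)

noncomputable def ww {n : ℕ} (j : Fin n → ℕ) : ℚ := 1 / ∏ i, ((j i).factorial : ℚ)

theorem ww_pos {n : ℕ} (j : Fin n → ℕ) : 0 < ww j := by
  unfold ww; positivity

theorem gain (n k : ℕ) (hk : 6 * k ≤ n) :
    2 ^ k * (n + k).factorial ≤ (n.choose 2).choose k * n.factorial := by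
  induction k with
  | zero => simp
  | succ k ih =>
    have h1 := ih (by omega)
    have h2 := Nat.choose_succ_right_eq (n.choose 2) k
    have h3 : 2 * (k + 1) * (n + k + 1) ≤ n.choose 2 - k := by
      have := two_choose n
      have h4 : 2 * (k + 1) * (n + k + 1) + k ≤ n.choose 2 := by nlinarith
      omega
    refine Nat.le_of_mul_le_mul_right (c := k + 1) ?_ (by omega)
    calc 2 ^ (k + 1) * (n + (k + 1)).factorial * (k + 1)
        = (2 ^ k * (n + k).factorial) * (2 * (k + 1) * (n + k + 1)) := by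
          rw [← add_assoc, Nat.factorial_succ]; ring
      _ ≤ ((n.choose 2).choose k * n.factorial) * (n.choose 2 - k) := Nat.mul_le_mul h1 h3
      _ = _ := by rw [mul_right_comm, ← h2]; ring

theorem LL_V (n : ℕ) :
    2 ^ (∑ m ∈ range n, m / 6) * ww (oo n) ≤ LL n fun p => ww p.1 := by
  induction n with
  | zero => rw [LL_zero]; simp [ww]
  | succ n ih =>
    rw [LL_succ]
    refine le_trans ?_ (LL_le (φ := fun p => (2 ^ (n / 6) / n.factorial) * ww p.1) fun p hp => ?_)
    · rw [LL_mul, sum_range_succ, pow_add]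
      refine le_trans (le_of_eq ?_) (mul_le_mul_of_nonneg_left ih (by positivity))
      simp only [ww, Fin.prod_univ_succ, oo_zero, oo_succ]
      field_simp
    · set k := n / 6 with hk
      have hv := vand (univ : Finset (Fin n)) p.1 k
      rw [JJ_sum n p hp] at hv
      have hg : ((2 ^ k * (n + k).factorial : ℕ) : ℚ) ≤ ((n.choose 2).choose k * n.factorial : ℕ) := by
        exact_mod_cast gain n k (by omega)
      have h1 : (2 ^ k / n.factorial : ℚ) ≤ ((n.choose 2).choose k : ℕ) / (n + k).factorial := by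
        rw [div_le_div_iff₀ (by positivity) (by positivity)]
        exact_mod_cast hg
      refine le_trans (mul_le_mul_of_nonneg_right h1 (ww_pos _).le) ?_
      rw [hv]
      push_cast
      rw [sum_div, sum_mul, ← sum_filter_add_sum_filter_not _ (fun u => u ∈ box p.1),
        sum_eq_zero (s := filter (fun u => ¬ u ∈ box p.1) _), add_zero]
      · refine le_trans (sum_le_sum fun u hu => ?_) (sum_le_sum_of_subset_of_nonneg
          (s := filter (fun u => u ∈ box p.1) (piAntidiag univ k))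
          (fun u hu => (mem_filter.1 hu).2) fun u _ _ => (ww_pos _).le)
        have a1 : ∑ i, u i = k := (mem_piAntidiag.1 (mem_filter.1 hu).1).1
        have a2 := mem_box.1 (mem_filter.1 hu).2
        have a3 : (∏ i, (((p.1 i).choose (u i) : ℕ) : ℚ)) * ∏ i, ((p.1 i - u i).factorial : ℚ)
            ≤ ∏ i, ((p.1 i).factorial : ℚ) := by
          rw [← prod_mul_distrib]
          refine prod_le_prod (fun _ _ => by positivity) fun i _ => ?_
          have b1 := Nat.choose_mul_factorial_mul_factorial (a2 i)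
          have b2 : (p.1 i).choose (u i) * (p.1 i - u i).factorial ≤ (p.1 i).factorial := by
            rw [← b1, mul_right_comm]
            exact Nat.le_mul_of_pos_right _ (Nat.factorial_pos _)
          exact_mod_cast b2
        simp only [ww, stp, Fin.prod_univ_succ, Fin.cons_zero, Fin.cons_succ, Pi.sub_apply, a1]
        rw [div_mul_div_comm, mul_one, div_le_div_iff₀ (by positivity) (by positivity), one_mul,
          mul_left_comm]
        gcongr
      · intro u hu
        obtain ⟨i, hi⟩ := not_forall.1 fun h => (mem_filter.1 hu).2 (mem_box.2 h)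
        rw [prod_eq_zero (mem_univ i) (by rw [Nat.choose_eq_zero_of_lt (by omega)]; simp)]
        simp

theorem sum_div_six (n : ℕ) : n.choose 2 ≤ 6 * ∑ m ∈ range n, m / 6 + 5 * n := by
  induction n with
  | zero => simp
  | succ n ih => rw [choose_two_succ, sum_range_succ]; omega

end Pool.Agent.Lib.MP_da4f77_co
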